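import Pool.Agent.H684R3.Smo.Stmts

set_option autoImplicit false

/-!
Smoothed analysis of the Skolem Problem: assembly.
-/

namespace Pool.Agent.H684R3.Smo
open Pool.Agent.H884R2.Sko Pool.Agent.H692R2.USS Polynomial

/-- a prime `p ≤ (log H)^A` modulo which the sequence has period `(p - 1) / 2` and no zero -/
def Cert (A : ℝ) (H : ℕ) {d : ℕ} (c a : Fin d → ℤ) : Prop :=
  ∃ p : ℕ, p.Prime ∧ (p : ℝ) ≤ Real.log H ^ A ∧ ∀ u, IsSeq c a u →
    (∀ n, (p : ℤ) ∣ u (n + (p - 1) / 2) - u n) ∧ ∀ n, ¬ (p : ℤ) ∣ u n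

theorem good_cert {d : ℕ} (c a : Fin d → ℤ) (p : ℕ)
    (h : GoodP (p := p) (fun i => ((c (Fin.rev i) : ℤ) : ZMod p)) (fun i => (a i : ZMod p)))
    (u : ℕ → ℤ) (hu : IsSeq c a u) :
    (∀ n, (p : ℤ) ∣ u (n + (p - 1) / 2) - u n) ∧ ∀ n, ¬ (p : ℤ) ∣ u n := by
  have key : ∀ n, ((u n : ℤ) : ZMod p) =
      seq (fun i => ((c (Fin.rev i) : ℤ) : ZMod p)) (fun i => (a i : ZMod p)) n := by
    intro n
    rw [(isSeq_iff c a u).1 hu n]
    have h2 := map_seq (Int.castRingHom (ZMod p)) (fun i => c (Fin.rev i)) a n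
    rw [eq_intCast] at h2
    exact h2
  constructor
  · intro n
    rw [← ZMod.intCast_zmod_eq_zero_iff_dvd, Int.cast_sub, key, key, h.1 n, sub_self]
  · intro n hn
    rw [← ZMod.intCast_zmod_eq_zero_iff_dvd, key] at hn
    exact h.2 n hn

theorem finite_sub {ι : Type} [Fintype ι] [DecidableEq ι] (b : ι → ℤ) (H : ℕ)
    (Q : (ι → ℤ) → Prop) : Finite {v : ι → ℤ // v ∈ bx b H ∧ Q v} :=
  Finite.of_injective (fun v => (⟨v.1, v.2.1⟩ : bx b H)) fun x y h => by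
    apply Subtype.ext
    simpa using h

theorem card_le_sub {α β : Type} (S : Finset α) (Q : β → Prop) (hfin : Finite {v // Q v})
    (f : α → β) (hf : Function.Injective f) (hQ : ∀ a ∈ S, Q (f a)) :
    S.card ≤ Nat.card {v // Q v} := by
  have h := Nat.card_le_card_of_injective (fun a : S => (⟨f a.1, hQ a.1 a.2⟩ : {v // Q v}))
    (fun x y h => by
      apply Subtype.ext
      apply hf
      simpa using h)
  rwa [Nat.card_eq_fintype_card, Fintype.card_coe] at h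

open Classical in
/-- inputs with both coefficients and initial values perturbed -/
theorem part1 (h5 : T5) (h6 : T6) (h9 : T9) (d : ℕ) (hd : 1 ≤ d) (A : ℝ) (hA : 1 < A) :
    ∃ δ : ℝ, 0 < δ ∧ ∃ H₀ : ℕ, ∀ H : ℕ, H₀ ≤ H → ∀ b b' : Fin d → ℤ,
      (((box b H ×ˢ box b' H).filter (fun x => ¬ Cert A H x.1 x.2)).card : ℝ) ≤
        (2 * (H : ℝ) + 1) ^ (2 * d) * (H : ℝ) ^ (-δ) := by
  obtain ⟨κ, hκ, hk⟩ := h6 d hd
  set θ : ℝ := (1 + 1 / A) / 2 with hθ
  have hA0 : 0 < A := by linarith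
  have hinv : 1 / A < 1 := by rw [div_lt_one hA0]; exact hA
  have hinv0 : 0 < 1 / A := by positivity
  have hθ0 : 0 < θ := by rw [hθ]; positivity
  have hθ1 : θ < 1 := by rw [hθ]; linarith
  have hAθ : 1 < A * θ := by
    rw [hθ]
    have : A * ((1 + 1 / A) / 2) = (A + 1) / 2 := by field_simp
    rw [this]; linarith
  obtain ⟨δ, hδ, H₀, hmain⟩ := h5 (Fin d ⊕ Fin d) (fun p => p.Prime ∧ 4 * d ≤ p)
    (fun p => {v | GoodP (fun i => v (Sum.inl i)) (fun i => v (Sum.inr i))}) κ θ A hκ hθ0 hA0 hAθ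
    (fun p hp => ⟨hp.1, hk p hp.1 hp.2⟩) (h9 θ (4 * d) hθ1)
  refine ⟨δ, hδ, H₀, fun H hH b b' => ?_⟩
  have h1 := hmain H hH (Sum.elim (fun i => b (Fin.rev i)) b')
  have hcard : Fintype.card (Fin d ⊕ Fin d) = 2 * d := by simp; ring
  rw [hcard] at h1
  refine le_trans ?_ h1
  norm_cast
  refine card_le_sub _ _ (finite_sub _ _ _)
    (fun x : (Fin d → ℤ) × (Fin d → ℤ) => Sum.elim (fun i => x.1 (Fin.rev i)) x.2) ?_ ?_
  · rintro ⟨c, a⟩ ⟨c', a'⟩ h
    simp only at h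
    have e1 : c = c' := by
      funext i
      have := congrFun h (Sum.inl (Fin.rev i))
      simpa using this
    have e2 : a = a' := by
      funext i
      have := congrFun h (Sum.inr i)
      simpa using this
    rw [e1, e2]
  · rintro ⟨c, a⟩ h
    rw [Finset.mem_filter, Finset.mem_product] at h
    obtain ⟨⟨hc, ha⟩, hcert⟩ := h
    simp only at hc ha hcert
    rw [mem_box] at hc ha
    constructor
    · unfold bx
      rw [Fintype.mem_piFinset]
      rintro (i | i)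
      · have := hc (Fin.rev i)
        rw [abs_le] at this
        rw [Finset.mem_Icc]
        simp only [Sum.elim_inl]
        constructor <;> linarith [this.1, this.2]
      · have := ha i
        rw [abs_le] at this
        rw [Finset.mem_Icc]
        simp only [Sum.elim_inr]
        constructor <;> linarith [this.1, this.2]
    · intro p hp hpA hG
      apply hcert
      refine ⟨p, hp.1, hpA, fun u hu => good_cert c a p ?_ u hu⟩
      simpa using hG

open Classical in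
/-- fixed recurrence with squarefree characteristic polynomial -/
theorem part2 (h5 : T5) (h7 : T7) (h8 : T8) (d : ℕ) (hd : 1 ≤ d) (c : Fin d → ℤ)
    (hc : c ⟨d - 1, by omega⟩ ≠ 0) (hsq : Squarefree ((charPoly c).map (Int.castRingHom ℚ))) :
    ∃ A δ : ℝ, 0 < A ∧ 0 < δ ∧ ∃ H₀ : ℕ, ∀ H : ℕ, H₀ ≤ H → ∀ b : Fin d → ℤ,
      (((box b H).filter (fun a => ¬ Cert A H c a)).card : ℝ) ≤
        (2 * (H : ℝ) + 1) ^ d * (H : ℝ) ^ (-δ) := by
  rw [charPoly_eq] at hsq
  have h0 : (chi (fun i => c (Fin.rev i))).coeff 0 ≠ 0 := by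
    have := chi_coeff (fun i => c (Fin.rev i)) ⟨0, by omega⟩
    simp only at this
    rw [this, neg_ne_zero]
    have e : Fin.rev (⟨0, by omega⟩ : Fin d) = ⟨d - 1, by omega⟩ := by
      apply Fin.ext
      rw [Fin.val_rev]
    rw [e]
    exact hc
  obtain ⟨g, p₀, hg, hgood⟩ := h7 d _ hd h0 hsq
  obtain ⟨K, hF, hNF, hK⟩ := splitField_one g hg
  obtain ⟨θ, hθ, y₀, hsup⟩ := @h8 K hF hNF
  set P : ℕ → Prop := fun p => (p.Prime ∧ p₀ ≤ p) ∧ (g.map (Int.castRingHom (ZMod p))).Splits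
    with hP
  have hsupP : ∃ y₁ : ℕ, ∀ y : ℕ, y₁ ≤ y →
      (y : ℝ) ^ (θ / 2) ≤ (Nat.card {p : ℕ // P p ∧ p ≤ y} : ℝ) := by
    -- `y ^ θ - p₀ ≥ y ^ (θ / 2)` eventually
    have hev : ∀ᶠ y : ℕ in Filter.atTop, (p₀ : ℝ) + 1 ≤ (y : ℝ) ^ (θ / 2) := by
      have : Filter.Tendsto (fun y : ℕ => (y : ℝ) ^ (θ / 2)) Filter.atTop Filter.atTop :=
        (tendsto_rpow_atTop (by positivity)).comp tendsto_natCast_atTop_atTop
      exact this.eventually_ge_atTop _
    obtain ⟨y₂, hy₂⟩ := Filter.eventually_atTop.1 hev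
    refine ⟨max y₀ y₂, fun y hy => ?_⟩
    have h1 := hsup y ((le_max_left _ _).trans hy)
    have h2 := hy₂ y ((le_max_right _ _).trans hy)
    have hfinP : Finite {p : ℕ // P p ∧ p ≤ y} :=
      Set.Finite.subset (Set.finite_Iic y) (fun p hp => hp.2)
    have h3 : Nat.card {p : ℕ // (p.Prime ∧ @HasDegOne K hF hNF p) ∧ p ≤ y} ≤
        Nat.card {p : ℕ // P p ∧ p ≤ y} + p₀ := by
      have e : Nat.card ({p : ℕ // P p ∧ p ≤ y} ⊕ Fin p₀) =
          Nat.card {p : ℕ // P p ∧ p ≤ y} + p₀ := by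
        rw [Nat.card_sum, Nat.card_eq_fintype_card (α := Fin p₀), Fintype.card_fin]
      rw [← e]
      apply Nat.card_le_card_of_injective (fun p : {p : ℕ // (p.Prime ∧ @HasDegOne K hF hNF p) ∧
        p ≤ y} => if h : p.1 < p₀ then Sum.inr (⟨p.1, h⟩ : Fin p₀) else
          Sum.inl (⟨p.1, ⟨⟨p.2.1.1, not_lt.1 h⟩, hK p.1 p.2.1.1 p.2.1.2⟩, p.2.2⟩ :
            {p : ℕ // P p ∧ p ≤ y}))
      intro x x' h
      apply Subtype.ext
      simp only at h
      split_ifs at h with h4 h5 h5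
      · simpa using h
      · simpa using h
    have h4 : ((Nat.card {p : ℕ // (p.Prime ∧ @HasDegOne K hF hNF p) ∧ p ≤ y} : ℕ) : ℝ) ≤
        (Nat.card {p : ℕ // P p ∧ p ≤ y} : ℝ) + p₀ := by exact_mod_cast h3
    have h5 : (y : ℝ) ^ θ = (y : ℝ) ^ (θ / 2) * (y : ℝ) ^ (θ / 2) := by
      rcases Nat.eq_zero_or_pos y with rfl | hy0
      · rw [Nat.cast_zero, Real.zero_rpow hθ.ne', Real.zero_rpow (by positivity)]; ring
      · rw [← Real.rpow_add (by exact_mod_cast hy0)]; congr 1; ring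
    have h6 : (0 : ℝ) ≤ (p₀ : ℝ) := by positivity
    nlinarith
  set A : ℝ := 4 / θ with hA
  have hA0 : 0 < A := by positivity
  have hAθ : 1 < A * (θ / 2) := by
    have : A * (θ / 2) = 2 := by rw [hA]; field_simp; norm_num
    rw [this]; norm_num
  obtain ⟨δ, hδ, H₀, hmain⟩ := h5 (Fin d) P
    (fun p => {a | GoodP (fun i => ((c (Fin.rev i) : ℤ) : ZMod p)) a}) (1 / 2) (θ / 2) A
    (by norm_num) (by positivity) hA0 hAθ
    (fun p hp => ⟨hp.1.1, hgood p hp.1.1 hp.1.2 hp.2⟩) hsupP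
  refine ⟨A, δ, hA0, hδ, H₀, fun H hH b => ?_⟩
  have h1 := hmain H hH b
  rw [Fintype.card_fin] at h1
  refine le_trans ?_ h1
  norm_cast
  refine card_le_sub _ _ (finite_sub _ _ _) (fun a : Fin d → ℤ => a) (fun _ _ h => h) ?_
  intro a h
  rw [Finset.mem_filter] at h
  obtain ⟨ha, hcert⟩ := h
  refine ⟨ha, ?_⟩
  intro p hp hpA hG
  exact hcert ⟨p, hp.1.1, hpA, fun u hu => good_cert c a p hG u hu⟩

end Pool.Agent.H684R3.Smo
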