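import Pool.Agent.H684R3.Smo.Asm

set_option autoImplicit false

/-! The finite check which verifies a certificate. -/

namespace Pool.Agent.H684R3.Smo
open Pool.Agent.H884R2.Sko Pool.Agent.H692R2.USS Polynomial

/-- if the first `d` terms repeat after `T` steps modulo `p`, then all terms do -/
theorem period_of_init {d : ℕ} (c a : Fin d → ℤ) (u : ℕ → ℤ) (hu : IsSeq c a u) (p T : ℕ)
    (h : ∀ i < d, (p : ℤ) ∣ u (i + T) - u i) (n : ℕ) : (p : ℤ) ∣ u (n + T) - u n := by
  induction n using Nat.strong_induction_on with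
  | _ n ih =>
    by_cases hn : n < d
    · exact h n hn
    · obtain ⟨m, rfl⟩ : ∃ m, n = m + d := ⟨n - d, by omega⟩
      have e1 := hu.2 (m + T)
      have e2 := hu.2 m
      rw [show m + d + T = m + T + d by ring, e1, e2, ← Finset.sum_sub_distrib]
      refine Finset.dvd_sum fun i _ => ?_
      rw [← mul_sub]
      have hi := i.2
      have h3 := ih (m + d - 1 - i) (by omega)
      rw [show m + T + d - 1 - (i : ℕ) = m + d - 1 - i + T by omega]
      exact h3.mul_left _

theorem finite_check {d : ℕ} (c a : Fin d → ℤ) (u : ℕ → ℤ) (hu : IsSeq c a u) (p : ℕ)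
    (hp : 3 ≤ p) (h : ∀ i < d, (p : ℤ) ∣ u (i + (p - 1) / 2) - u i)
    (h0 : ∀ n < (p - 1) / 2, ¬ (p : ℤ) ∣ u n) (n : ℕ) :
    (p : ℤ) ∣ u (n + (p - 1) / 2) - u n ∧ ¬ (p : ℤ) ∣ u n := by
  have hper := period_of_init c a u hu p ((p - 1) / 2) h
  refine ⟨hper n, ?_⟩
  induction n using Nat.strong_induction_on with
  | _ n ih =>
    by_cases hn : n < (p - 1) / 2
    · exact h0 n hn
    · obtain ⟨m, rfl⟩ : ∃ m, n = m + (p - 1) / 2 := ⟨n - (p - 1) / 2, by omega⟩
      intro hdvd
      apply ih m (by omega)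
      have := dvd_sub hdvd (hper m)
      simpa using this

end Pool.Agent.H684R3.Smo
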