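import Pool.Agent.H684R3.Smo.Stmts

set_option autoImplicit false

/-!
Task 1 of project H684-SMO: equidistribution of a box.
-/

namespace Pool.Agent.H684R3.Smo

namespace Task1

lemma prod_close {ι : Type} (s : Finset ι) (n : ι → ℝ) (x : ℝ) (hx : 1 ≤ x)
    (h0 : ∀ i, 0 ≤ n i) (h1 : ∀ i, |n i - x| ≤ 1) :
    |∏ i ∈ s, n i - x ^ s.card| ≤ s.card * (2 * x) ^ (s.card - 1) := by
  classical
  induction s using Finset.induction_on with
  | empty => simp
  | insert a s ha ih =>
    rw [Finset.prod_insert ha, Finset.card_insert_of_notMem ha, Nat.add_sub_cancel]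
    set k := s.card with hk
    set P := ∏ i ∈ s, n i with hP
    have hPle : P ≤ (2 * x) ^ k := by
      rw [hP, hk, ← Finset.prod_const]
      refine Finset.prod_le_prod (fun i _ => h0 i) fun i _ => ?_
      have := (abs_le.1 (h1 i)).2
      linarith
    have hP0 : 0 ≤ P := Finset.prod_nonneg fun i _ => h0 i
    have h2 : n a * P - x ^ (k + 1) = (n a - x) * P + x * (P - x ^ k) := by ring
    rw [h2]
    refine (abs_add_le _ _).trans ?_
    rw [abs_mul, abs_mul, abs_of_nonneg hP0, abs_of_nonneg (by linarith : (0 : ℝ) ≤ x)]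
    have h3 : |n a - x| * P ≤ 1 * (2 * x) ^ k :=
      mul_le_mul (h1 a) hPle hP0 zero_le_one
    have h4 : x * |P - x ^ k| ≤ k * (2 * x) ^ k := by
      refine (mul_le_mul_of_nonneg_left ih (by linarith)).trans ?_
      rcases Nat.eq_zero_or_pos k with hk0 | hk0
      · rw [hk0]; simp
      · obtain ⟨j, hj⟩ : ∃ j, k = j + 1 := ⟨k - 1, by omega⟩
        rw [hj, Nat.add_sub_cancel, pow_succ]
        have h5 : 0 ≤ (2 * x) ^ j := by positivity
        have h6 : (0 : ℝ) ≤ ((j + 1 : ℕ) : ℝ) * (2 * x) ^ j * x := by positivity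
        nlinarith
    push_cast
    nlinarith

lemma count_close (q : ℕ) (hq : 0 < q) (a r : ℤ) (H : ℕ) :
    |(((Finset.Icc (a - H) (a + H)).filter fun z => z ≡ r [ZMOD q]).card : ℝ) -
      (2 * (H : ℝ) + 1) / q| ≤ 1 := by
  have hq' : (0 : ℤ) < q := by exact_mod_cast hq
  have h1 : Finset.Icc (a - H) (a + H) = Finset.Ico (a - H) (a + H + 1) := by
    ext z; simp only [Finset.mem_Icc, Finset.mem_Ico]; omega
  rw [h1]
  have h2 := Int.Ico_filter_modEq_card (a - H) (a + H + 1) hq' r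
  set c := ((Finset.Ico (a - (H : ℤ)) (a + H + 1)).filter fun z => z ≡ r [ZMOD q]).card with hc
  set u : ℚ := (((a + H + 1 : ℤ) : ℚ) - r) / ((q : ℤ) : ℚ) with hu
  set v : ℚ := (((a - H : ℤ) : ℚ) - r) / ((q : ℤ) : ℚ) with hv
  have hqQ : (0 : ℚ) < ((q : ℤ) : ℚ) := by exact_mod_cast hq'
  have huv : u - v = (2 * (H : ℚ) + 1) / q := by
    rw [hu, hv, ← sub_div]
    push_cast
    ring
  have hvu : v ≤ u := by
    have : 0 ≤ (2 * (H : ℚ) + 1) / q := by positivity
    linarith
  have h3 : 0 ≤ ⌈u⌉ - ⌈v⌉ := sub_nonneg.2 (Int.ceil_le_ceil hvu)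
  rw [max_eq_left h3] at h2
  have h4 : ((c : ℤ) : ℚ) = (⌈u⌉ : ℚ) - ⌈v⌉ := by rw [h2]; push_cast; ring
  have h5 : |((c : ℤ) : ℚ) - (2 * (H : ℚ) + 1) / q| ≤ 1 := by
    rw [h4, ← huv, abs_le]
    have a1 := Int.le_ceil u
    have a2 := Int.ceil_lt_add_one u
    have a3 := Int.le_ceil v
    have a4 := Int.ceil_lt_add_one v
    constructor <;> linarith
  have h6 : ((|((c : ℤ) : ℚ) - (2 * (H : ℚ) + 1) / q| : ℚ) : ℝ) ≤ ((1 : ℚ) : ℝ) := by
    exact_mod_cast h5
  push_cast at h6
  exact h6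

end Task1

open Task1 in
theorem t1 : T1 := by
  classical
  intro ι _ _ q F hq hper hF H b hqH
  set D := Fintype.card ι with hD
  set S : ℝ := 2 * (H : ℝ) + 1 with hS
  have hqR : (0 : ℝ) < q := by exact_mod_cast hq
  have hx : 1 ≤ S / q := by
    rw [le_div_iff₀ hqR, one_mul, hS]
    exact_mod_cast hqH
  set R : Finset (ι → ℤ) := Fintype.piFinset (fun _ : ι => Finset.Ico (0 : ℤ) q) with hR
  have hq0 : (q : ℤ) ≠ 0 := by exact_mod_cast hq.ne'
  have hqp : (0 : ℤ) < q := by exact_mod_cast hq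
  let red : (ι → ℤ) → (ι → ℤ) := fun v i => v i % q
  have hmaps : ∀ v ∈ bx b H, red v ∈ R := by
    intro v _
    rw [hR, Fintype.mem_piFinset]
    intro i
    exact Finset.mem_Ico.2 ⟨Int.emod_nonneg _ hq0, Int.emod_lt_of_pos _ hqp⟩
  have hsum : ∑ v ∈ bx b H, F v = ∑ r ∈ R, (((bx b H).filter fun v => red v = r).card : ℝ) * F r := by
    rw [← Finset.sum_fiberwise_of_maps_to hmaps]
    refine Finset.sum_congr rfl fun r _ => ?_
    rw [← nsmul_eq_mul, ← Finset.sum_const]
    refine Finset.sum_congr rfl fun v hv => ?_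
    rw [Finset.mem_filter] at hv
    apply hper
    intro i
    rw [← hv.2]
    exact Int.dvd_self_sub_emod
  have hcard : ∀ r ∈ R, (((bx b H).filter fun v => red v = r).card : ℝ) =
      ∏ i, (((Finset.Icc (b i - H) (b i + H)).filter fun z => z ≡ r i [ZMOD q]).card : ℝ) := by
    intro r hr
    rw [hR, Fintype.mem_piFinset] at hr
    have h1 : (bx b H).filter (fun v => red v = r) = Fintype.piFinset fun i =>
        (Finset.Icc (b i - (H : ℤ)) (b i + H)).filter fun z => z ≡ r i [ZMOD q] := by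
      ext v
      simp only [bx, Finset.mem_filter, Fintype.mem_piFinset]
      constructor
      · rintro ⟨h1, h2⟩ i
        refine ⟨h1 i, ?_⟩
        have h3 := congrFun h2 i
        have h4 := Finset.mem_Ico.1 (hr i)
        unfold Int.ModEq
        rw [Int.emod_eq_of_lt h4.1 h4.2]
        exact h3
      · intro h
        refine ⟨fun i => (h i).1, funext fun i => ?_⟩
        have h4 := Finset.mem_Ico.1 (hr i)
        have h3 := (h i).2
        unfold Int.ModEq at h3
        rw [Int.emod_eq_of_lt h4.1 h4.2] at h3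
        exact h3
    rw [h1, Fintype.card_piFinset]
    push_cast
    rfl
  have hcardR : (R.card : ℝ) = (q : ℝ) ^ D := by
    rw [hR, Fintype.card_piFinset]
    simp [hD]
  have hAv : S ^ D * Av q F = ∑ r ∈ R, (S / q) ^ D * F r := by
    unfold Av
    rw [← Finset.mul_sum, div_pow, ← hR, ← hD]
    ring
  rw [hsum, hAv, ← Finset.sum_sub_distrib]
  refine (Finset.abs_sum_le_sum_abs _ _).trans ?_
  have hterm : ∀ r ∈ R, |(((bx b H).filter fun v => red v = r).card : ℝ) * F r -
      (S / q) ^ D * F r| ≤ D * (2 * (S / q)) ^ (D - 1) := by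
    intro r hr
    rw [← sub_mul, abs_mul]
    have h1 := prod_close Finset.univ
      (fun i => (((Finset.Icc (b i - (H : ℤ)) (b i + H)).filter fun z => z ≡ r i [ZMOD q]).card : ℝ))
      (S / q) hx (fun i => by positivity) (fun i => count_close q hq (b i) (r i) H)
    rw [Finset.card_univ, ← hD] at h1
    rw [hcard r hr]
    calc _ ≤ (D * (2 * (S / q)) ^ (D - 1)) * 1 :=
          mul_le_mul h1 (hF r) (abs_nonneg _) (by positivity)
      _ = _ := mul_one _
  refine (Finset.sum_le_sum hterm).trans ?_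
  rw [Finset.sum_const, nsmul_eq_mul, hcardR]
  rcases Nat.eq_zero_or_pos D with h0 | h0
  · rw [h0]; simp
  · obtain ⟨j, hj⟩ : ∃ j, D = j + 1 := ⟨D - 1, by omega⟩
    rw [hj, Nat.add_sub_cancel]
    have h7 : (q : ℝ) ^ (j + 1) * (((j + 1 : ℕ) : ℝ) * (2 * (S / q)) ^ j) =
        ((j + 1 : ℕ) : ℝ) * 2 ^ j * q * S ^ j := by
      rw [mul_pow, div_pow, pow_succ]
      field_simp
    rw [h7]
    have hS0 : 0 ≤ S := by rw [hS]; positivity
    have h8 : (2 : ℝ) ^ j ≤ 2 ^ (j + 1) := pow_le_pow_right₀ (by norm_num) (Nat.le_succ j)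
    gcongr

end Pool.Agent.H684R3.Smo
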