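import Pool.Agent.H884R2.Sko.Algo

set_option autoImplicit false

/-!
Task 10 of project H684-SMO: the predicate (some prime `q ≤ y` divides no term of the sequence) is a computable
property of `y` and the recurrence.
-/

namespace Pool.Agent.H684R3.Smo
open Pool.Agent.H884R2.Sko Pool.Agent.H692R2.USS
open Pool.Agent.Helper446.RE (cp_eq)

theorem prime_iff_bounded {p : List (ℕ × ℕ) × List (ℕ × ℕ)} {u : ℕ → ℤ} (h : IsLRS p u) {q : ℕ}
    (hq : q.Prime) : (∀ n < q ^ p.2.length + 1,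
      ¬ ((run (Fq p.1) p.2 n).1 % q = (run (Fq p.1) p.2 n).2 % q)) ↔ ∀ n, ¬ (q : ℤ) ∣ u n := by
  have hrun := isLRS_run' h
  constructor
  · intro h' n
    have : Fact q.Prime := ⟨hq⟩
    have hd : p.1.length = p.2.length := h.1
    have key := no_zero_bounded (R := ZMod q) (d := p.1.length)
      (fun i => (((iv (p.1.getD (p.1.length - 1 - i) (0, 0))) : ℤ) : ZMod q))
      (fun n => (u n : ZMod q)) ?_ ?_ n
    · intro hdvd
      exact key ((ZMod.intCast_zmod_eq_zero_iff_dvd _ _).2 hdvd)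
    · intro n
      rw [h.2.2.2 n, ← Finset.sum_range_reflect]
      push_cast
      rw [Fin.sum_univ_eq_sum_range (fun i => ((iv (p.1.getD (p.1.length - 1 - i) (0, 0)) : ℤ) :
        ZMod q) * ((u (n + i) : ℤ) : ZMod q)) p.1.length]
      refine Finset.sum_congr rfl fun i hi => ?_
      rw [Finset.mem_range] at hi
      rw [show n + p.1.length - 1 - (p.1.length - 1 - i) = n + i by omega]
      simp [iv]
    · intro n hn
      rw [ZMod.card, hd] at hn
      have h1 := (mod_ne_iff _ _).1 (h' n hn)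
      rw [hrun] at h1
      rw [Ne, ZMod.intCast_zmod_eq_zero_iff_dvd]
      exact h1
  · intro h' n _
    rw [← Ne, mod_ne_iff, hrun]
    exact h' n

theorem t10 : ∃ f : ℕ × (List (ℕ × ℕ) × List (ℕ × ℕ)) → Bool, Computable f ∧
    ∀ (y : ℕ) (p : List (ℕ × ℕ) × List (ℕ × ℕ)) (u : ℕ → ℤ), IsLRS p u →
      (f (y, p) = true ↔ ∃ q : ℕ, q ≤ y ∧ q.Prime ∧ ∀ n, ¬ (q : ℤ) ∣ u n) := by
  have hc : ComputablePred fun x : ℕ × (List (ℕ × ℕ) × List (ℕ × ℕ)) =>
      ∃ q < x.1 + 1, q.Prime ∧ ∀ n < q ^ x.2.2.length + 1,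
        ¬ ((run (Fq x.2.1) x.2.2 n).1 % q = (run (Fq x.2.1) x.2.2 n).2 % q) := by
    refine cp_ex (p := fun (x : ℕ × (List (ℕ × ℕ) × List (ℕ × ℕ))) (q : ℕ) => q.Prime ∧
      ∀ n < q ^ x.2.2.length + 1,
        ¬ ((run (Fq x.2.1) x.2.2 n).1 % q = (run (Fq x.2.1) x.2.2 n).2 % q)) ?_ (by fun_prop)
    refine cp_and (cp_prime (by fun_prop)) ?_
    refine cp_all (p := fun (x : (ℕ × (List (ℕ × ℕ) × List (ℕ × ℕ))) × ℕ) (n : ℕ) =>
      ¬ ((run (Fq x.1.2.1) x.1.2.2 n).1 % x.2 = (run (Fq x.1.2.1) x.1.2.2 n).2 % x.2)) ?_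
      (by fun_prop)
    exact (cp_eq (by fun_prop) (by fun_prop)).not
  obtain ⟨f, hf, hfe⟩ := ComputablePred.computable_iff.1 hc
  refine ⟨f, hf, fun y p u hu => ?_⟩
  have h1 := congrFun hfe (y, p)
  simp only [eq_iff_iff] at h1
  rw [← h1]
  constructor
  · rintro ⟨q, hqy, hq, h⟩
    exact ⟨q, by omega, hq, (prime_iff_bounded hu hq).1 h⟩
  · rintro ⟨q, hqy, hq, h⟩
    exact ⟨q, by omega, hq, (prime_iff_bounded hu hq).2 h⟩

end Pool.Agent.H684R3.Smo
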