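import Pool.Agent.H684R3.Smo.Stmts

set_option autoImplicit false

/-!
# Task 2: Chinese remainder theorem for averages (by helper600)
-/

namespace Pool.Agent.H684R3.Smo

open Finset

lemma Per.mul' {ι : Type} {q q' : ℕ} {F G : (ι → ℤ) → ℝ} (hF : Per q F) (hG : Per q' G) :
    Per (q * q') (fun v => F v * G v) := by
  intro v w h
  have h1 : F v = F w := hF v w fun i => dvd_trans (by push_cast; exact dvd_mul_right _ _) (h i)
  have h2 : G v = G w := hG v w fun i => dvd_trans (by push_cast; exact dvd_mul_left _ _) (h i)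
  simp only [h1, h2]

lemma sum_crt {ι : Type} [Fintype ι] [DecidableEq ι] {q q' : ℕ} (hq : 0 < q) (hq' : 0 < q')
    (hc : Nat.Coprime q q') {F G : (ι → ℤ) → ℝ} (hF : Per q F) (hG : Per q' G) :
    ∑ r ∈ Fintype.piFinset (fun _ : ι => Finset.Ico (0 : ℤ) ((q * q' : ℕ) : ℤ)), F r * G r =
      (∑ r ∈ Fintype.piFinset (fun _ : ι => Finset.Ico (0 : ℤ) q), F r) *
        ∑ r ∈ Fintype.piFinset (fun _ : ι => Finset.Ico (0 : ℤ) q'), G r := by
  have hqz : (0 : ℤ) < q := by exact_mod_cast hq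
  have hqz' : (0 : ℤ) < q' := by exact_mod_cast hq'
  rw [Finset.sum_mul_sum, ← Finset.sum_product' (f := fun r r' => F r * G r')]
  have hmaps : ∀ r ∈ Fintype.piFinset (fun _ : ι => Finset.Ico (0 : ℤ) ((q * q' : ℕ) : ℤ)),
      ((fun i => r i % q, fun i => r i % q') : (ι → ℤ) × (ι → ℤ)) ∈
        Fintype.piFinset (fun _ : ι => Finset.Ico (0 : ℤ) q) ×ˢ
          Fintype.piFinset (fun _ : ι => Finset.Ico (0 : ℤ) q') := by
    intro r _
    rw [Finset.mem_product, Fintype.mem_piFinset, Fintype.mem_piFinset]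
    refine ⟨fun i => ?_, fun i => ?_⟩
    · rw [Finset.mem_Ico]
      exact ⟨Int.emod_nonneg _ hqz.ne', Int.emod_lt_of_pos _ hqz⟩
    · rw [Finset.mem_Ico]
      exact ⟨Int.emod_nonneg _ hqz'.ne', Int.emod_lt_of_pos _ hqz'⟩
  have hinj : Set.InjOn (fun r : ι → ℤ => ((fun i => r i % q, fun i => r i % q') : (ι → ℤ) × (ι → ℤ)))
      (Fintype.piFinset (fun _ : ι => Finset.Ico (0 : ℤ) ((q * q' : ℕ) : ℤ)) : Set (ι → ℤ)) := by
    intro r hr r' hr' h
    rw [Finset.mem_coe, Fintype.mem_piFinset] at hr hr'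
    simp only [Prod.mk.injEq] at h
    funext i
    have h1 := congrFun h.1 i
    have h2 := congrFun h.2 i
    have d1 : (q : ℤ) ∣ r i - r' i := Int.ModEq.dvd (Int.ModEq.symm h1)
    have d2 : (q' : ℤ) ∣ r i - r' i := Int.ModEq.dvd (Int.ModEq.symm h2)
    have hcz : IsCoprime (q : ℤ) (q' : ℤ) := Nat.isCoprime_iff_coprime.2 hc
    have d3 : (q : ℤ) * q' ∣ r i - r' i := hcz.mul_dvd d1 d2
    have e1 := Finset.mem_Ico.1 (hr i)
    have e2 := Finset.mem_Ico.1 (hr' i)
    push_cast at e1 e2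
    have e3 : |r i - r' i| < (q : ℤ) * q' := by
      rw [abs_lt]
      constructor <;> linarith [e1.1, e1.2, e2.1, e2.2]
    have := Int.eq_zero_of_abs_lt_dvd d3 e3
    linarith
  refine Finset.sum_nbij (fun r : ι → ℤ => ((fun i => r i % q, fun i => r i % q') : (ι → ℤ) × (ι → ℤ)))
    hmaps hinj ?_ ?_
  · refine Finset.surjOn_of_injOn_of_card_le _ (fun r hr => hmaps r hr) hinj ?_
    rw [Finset.card_product]
    simp only [Fintype.card_piFinset, Int.card_Ico, sub_zero, Int.toNat_natCast, Finset.prod_const]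
    rw [mul_pow]
  · intro r _
    have h1 : F r = F (fun i => r i % q) := hF _ _ fun i => by
      have := Int.emod_add_mul_ediv (r i) q
      exact ⟨r i / q, by linarith⟩
    have h2 : G r = G (fun i => r i % q') := hG _ _ fun i => by
      have := Int.emod_add_mul_ediv (r i) q'
      exact ⟨r i / q', by linarith⟩
    simp only
    rw [← h1, ← h2]

lemma Av_crt {ι : Type} [Fintype ι] [DecidableEq ι] {q q' : ℕ} (hq : 0 < q) (hq' : 0 < q')
    (hc : Nat.Coprime q q') {F G : (ι → ℤ) → ℝ} (hF : Per q F) (hG : Per q' G) :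
    Av (q * q') (fun v => F v * G v) = Av q F * Av q' G := by
  unfold Av
  rw [sum_crt hq hq' hc hF hG, Nat.cast_mul, mul_pow, div_mul_div_comm]

theorem t2 : T2 := by
  intro ι J _ _ _ _ q F hq hc hP
  suffices H : ∀ S : Finset J, Per (∏ j ∈ S, q j) (fun v => ∏ j ∈ S, F j v) ∧
      Av (∏ j ∈ S, q j) (fun v => ∏ j ∈ S, F j v) = ∏ j ∈ S, Av (q j) (F j) from (H univ).2
  intro S
  induction S using Finset.induction_on with
  | empty =>
    refine ⟨fun v w _ => rfl, ?_⟩
    simp only [Finset.prod_empty]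
    unfold Av
    rw [Finset.sum_const, Fintype.card_piFinset]
    simp
  | insert j S hj ih =>
    obtain ⟨ih1, ih2⟩ := ih
    simp only [Finset.prod_insert hj]
    refine ⟨(hP j).mul' ih1, ?_⟩
    rw [Av_crt (hq j) (Finset.prod_pos fun i _ => hq i) ?_ (hP j) ih1, ih2]
    refine Nat.Coprime.prod_right fun i hi => hc j i ?_
    rintro rfl
    exact hj hi

end Pool.Agent.H684R3.Smo
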