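import Pool.Agent.H884R2.Sko.Density

set_option autoImplicit false

/-!
Smoothed analysis of the Skolem Problem: statements of the tasks (project H684-SMO).
-/

namespace Pool.Agent.H684R3.Smo
open Pool.Agent.H884R2.Sko Pool.Agent.H692R2.USS Polynomial

/-- integer vectors at distance at most `H` from `b` (maximum norm) -/
noncomputable def bx {ι : Type} [Fintype ι] [DecidableEq ι] (b : ι → ℤ) (H : ℕ) :
    Finset (ι → ℤ) :=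
  Fintype.piFinset fun i => Finset.Icc (b i - H) (b i + H)

/-- `F` is periodic modulo `q` in every coordinate -/
def Per {ι : Type} (q : ℕ) (F : (ι → ℤ) → ℝ) : Prop :=
  ∀ v w : ι → ℤ, (∀ i, (q : ℤ) ∣ v i - w i) → F v = F w

/-- the average of `F` over the residues modulo `q` -/
noncomputable def Av {ι : Type} [Fintype ι] [DecidableEq ι] (q : ℕ) (F : (ι → ℤ) → ℝ) : ℝ :=
  (∑ r ∈ Fintype.piFinset (fun _ : ι => Finset.Ico (0 : ℤ) q), F r) / (q : ℝ) ^ (Fintype.card ι)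

/-- Task 1: equidistribution of a box. -/
def T1 : Prop := ∀ (ι : Type) [Fintype ι] [DecidableEq ι] (q : ℕ) (F : (ι → ℤ) → ℝ),
  0 < q → Per q F → (∀ v, |F v| ≤ 1) → ∀ (H : ℕ) (b : ι → ℤ), q ≤ 2 * H + 1 →
    |∑ v ∈ bx b H, F v - (2 * (H : ℝ) + 1) ^ (Fintype.card ι) * Av q F| ≤
      (Fintype.card ι : ℝ) * 2 ^ (Fintype.card ι) * q *
        (2 * (H : ℝ) + 1) ^ (Fintype.card ι - 1)

/-- Task 2: Chinese remainder theorem for averages. -/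
def T2 : Prop := ∀ (ι J : Type) [Fintype ι] [DecidableEq ι] [Fintype J] [DecidableEq J]
  (q : J → ℕ) (F : J → (ι → ℤ) → ℝ), (∀ j, 0 < q j) →
  (∀ i j, i ≠ j → Nat.Coprime (q i) (q j)) → (∀ j, Per (q j) (F j)) →
    Av (∏ j, q j) (fun v => ∏ j, F j v) = ∏ j, Av (q j) (F j)

/-- Task 3: the second moment of the block product. -/
def T3 : Prop := ∀ (ι : Type) [Fintype ι] [DecidableEq ι] (m K y H : ℕ)
  (e : Fin m × Fin K → ℕ), Function.Injective e → (∀ x, (e x).Prime ∧ e x ≤ y) →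
  ∀ X : Fin m × Fin K → (ι → ℤ) → ℝ, (∀ x, Per (e x) (X x)) → (∀ x v, |X x v| ≤ 1) →
  (∀ x, Av (e x) (X x) = 0) → y ^ (2 * m) ≤ 2 * H + 1 → ∀ b : ι → ℤ,
    ∑ v ∈ bx b H, ∏ j, (∑ k, X (j, k) v) ^ 2 ≤
      (2 * (H : ℝ) + 1) ^ (Fintype.card ι) * (K : ℝ) ^ m +
        (K : ℝ) ^ (2 * m) * ((Fintype.card ι : ℝ) * 2 ^ (Fintype.card ι) * (y : ℝ) ^ (2 * m) *
          (2 * (H : ℝ) + 1) ^ (Fintype.card ι - 1))

/-- Task 4: counting the vectors which avoid all the sets `G p`. -/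
def T4 : Prop := ∀ (ι : Type) [Fintype ι] [DecidableEq ι] (G : ∀ p : ℕ, Set (ι → ZMod p))
  (κ : ℝ), 0 < κ → ∀ (m K y H : ℕ) (e : Fin m × Fin K → ℕ), Function.Injective e →
  (∀ x, (e x).Prime ∧ e x ≤ y ∧
    κ * (e x : ℝ) ^ (Fintype.card ι) ≤ (Nat.card (G (e x)) : ℝ)) →
  y ^ (2 * m) ≤ 2 * H + 1 → ∀ b : ι → ℤ,
    (Nat.card {v : ι → ℤ // v ∈ bx b H ∧ ∀ x, (fun i => (v i : ZMod (e x))) ∉ G (e x)} : ℝ) *
        (κ * K) ^ (2 * m) ≤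
      (2 * (H : ℝ) + 1) ^ (Fintype.card ι) * (K : ℝ) ^ m +
        (K : ℝ) ^ (2 * m) * ((Fintype.card ι : ℝ) * 2 ^ (Fintype.card ι) * (y : ℝ) ^ (2 * m) *
          (2 * (H : ℝ) + 1) ^ (Fintype.card ι - 1))

/-- Task 5: the asymptotic form. -/
def T5 : Prop := ∀ (ι : Type) [Fintype ι] [DecidableEq ι] (P : ℕ → Prop)
  (G : ∀ p : ℕ, Set (ι → ZMod p)) (κ θ A : ℝ), 0 < κ → 0 < θ → 0 < A → 1 < A * θ →
  (∀ p, P p → p.Prime ∧ κ * (p : ℝ) ^ (Fintype.card ι) ≤ (Nat.card (G p) : ℝ)) →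
  (∃ y₀ : ℕ, ∀ y : ℕ, y₀ ≤ y → (y : ℝ) ^ θ ≤ (Nat.card {p : ℕ // P p ∧ p ≤ y} : ℝ)) →
  ∃ δ : ℝ, 0 < δ ∧ ∃ H₀ : ℕ, ∀ H : ℕ, H₀ ≤ H → ∀ b : ι → ℤ,
    (Nat.card {v : ι → ℤ // v ∈ bx b H ∧ ∀ p, P p → (p : ℝ) ≤ Real.log H ^ A →
      (fun i => (v i : ZMod p)) ∉ G p} : ℝ) ≤
      (2 * (H : ℝ) + 1) ^ (Fintype.card ι) * (H : ℝ) ^ (-δ)

/-- the sequence over `ZMod p` has period `(p - 1) / 2` and no zero term -/
def GoodP {p d : ℕ} (c a : Fin d → ZMod p) : Prop :=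
  (∀ n, seq c a (n + (p - 1) / 2) = seq c a n) ∧ ∀ n, seq c a n ≠ 0

/-- Task 6: a positive proportion of the pairs (coefficients, initial values) is good modulo
every large prime. -/
def T6 : Prop := ∀ d : ℕ, 1 ≤ d → ∃ κ : ℝ, 0 < κ ∧ ∀ p : ℕ, p.Prime → 4 * d ≤ p →
  κ * (p : ℝ) ^ (Fintype.card (Fin d ⊕ Fin d)) ≤
    (Nat.card {v : Fin d ⊕ Fin d → ZMod p //
      GoodP (fun i => v (Sum.inl i)) (fun i => v (Sum.inr i))} : ℝ)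

/-- Task 7: fixed recurrence with squarefree characteristic polynomial: half of the initial
values are good modulo `p` if a certain monic polynomial splits modulo `p` and `p` is large. -/
def T7 : Prop := ∀ (d : ℕ) (c : Fin d → ℤ), 1 ≤ d → (chi c).coeff 0 ≠ 0 →
  Squarefree ((chi c).map (Int.castRingHom ℚ)) →
  ∃ (G : ℤ[X]) (p₀ : ℕ), G.Monic ∧ ∀ p : ℕ, p.Prime → p₀ ≤ p →
    (G.map (Int.castRingHom (ZMod p))).Splits →
    (1 / 2 : ℝ) * (p : ℝ) ^ (Fintype.card (Fin d)) ≤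
      (Nat.card {a : Fin d → ZMod p // GoodP (fun i => (c i : ZMod p)) a} : ℝ)

/-- Task 8: polynomially many primes with a prime of degree one above them. -/
def T8 : Prop := ∀ (K : Type) [Field K] [NumberField K], ∃ θ : ℝ, 0 < θ ∧ ∃ y₀ : ℕ,
  ∀ y : ℕ, y₀ ≤ y → (y : ℝ) ^ θ ≤ (Nat.card {p : ℕ // (p.Prime ∧ HasDegOne K p) ∧ p ≤ y} : ℝ)

/-- Task 9: a weak form of Chebyshev's lower bound. -/
def T9 : Prop := ∀ (θ : ℝ) (p₀ : ℕ), θ < 1 → ∃ y₀ : ℕ,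
  ∀ y : ℕ, y₀ ≤ y → (y : ℝ) ^ θ ≤ (Nat.card {p : ℕ // (p.Prime ∧ p₀ ≤ p) ∧ p ≤ y} : ℝ)

end Pool.Agent.H684R3.Smo
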