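import Mathlib
import Pool.Agent.H684R3.Smo.Stmts

set_option autoImplicit false

/-! Project H684-SMO, Task 3: the second moment of the block product (helper400). -/

namespace Pool.Agent.H684R3.Smo

namespace Task3

theorem Per.of_dvd {ι : Type} {q r : ℕ} {F : (ι → ℤ) → ℝ} (h : Per q F) (hd : q ∣ r) :
    Per r F := fun v w hv => h v w fun i => (Int.natCast_dvd_natCast.mpr hd).trans (hv i)

theorem Per.mul {ι : Type} {q : ℕ} {F G : (ι → ℤ) → ℝ} (h : Per q F) (h' : Per q G) :
    Per q (fun v => F v * G v) := fun v w hv => by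
  show F v * G v = F w * G w
  rw [h v w hv, h' v w hv]

theorem av_le {ι : Type} [Fintype ι] [DecidableEq ι] {q : ℕ} (hq : 0 < q) {F : (ι → ℤ) → ℝ}
    (hF : ∀ v, |F v| ≤ 1) : |Av q F| ≤ 1 := by
  unfold Av
  have hq' : (0 : ℝ) < (q : ℝ) ^ (Fintype.card ι) := by positivity
  rw [abs_div, abs_of_pos hq', div_le_one hq']
  refine (Finset.abs_sum_le_sum_abs _ _).trans ?_
  refine (Finset.sum_le_card_nsmul _ _ 1 fun v _ => hF v).trans ?_
  rw [Fintype.card_piFinset]
  simp

/-- the modulus attached to a pair of indices -/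
def qq {m K : ℕ} (e : Fin m × Fin K → ℕ) (j : Fin m) (a : Fin K × Fin K) : ℕ :=
  if a.1 = a.2 then e (j, a.1) else e (j, a.1) * e (j, a.2)

theorem main (t1 : T1) (t2 : T2) {ι : Type} [Fintype ι] [DecidableEq ι] (m K y H : ℕ)
    (e : Fin m × Fin K → ℕ) (he : Function.Injective e) (hp : ∀ x, (e x).Prime ∧ e x ≤ y)
    (X : Fin m × Fin K → (ι → ℤ) → ℝ) (hX : ∀ x, Per (e x) (X x)) (hX1 : ∀ x v, |X x v| ≤ 1)
    (hX0 : ∀ x, Av (e x) (X x) = 0) (hy : y ^ (2 * m) ≤ 2 * H + 1) (b : ι → ℤ)
    (f : Fin m → Fin K × Fin K) :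
    ∑ v ∈ bx b H, ∏ j, (X (j, (f j).1) v * X (j, (f j).2) v) ≤
      (if ∀ j, (f j).1 = (f j).2 then (2 * (H : ℝ) + 1) ^ (Fintype.card ι) else 0) +
        ((Fintype.card ι : ℝ) * 2 ^ (Fintype.card ι) * (y : ℝ) ^ (2 * m) *
          (2 * (H : ℝ) + 1) ^ (Fintype.card ι - 1)) := by
  classical
  set q : Fin m → ℕ := fun j => qq e j (f j) with hq
  set F : Fin m → (ι → ℤ) → ℝ := fun j v => X (j, (f j).1) v * X (j, (f j).2) v with hF
  have hqpos : ∀ j, 0 < q j := by
    intro j
    simp only [hq, qq]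
    split_ifs
    · exact (hp _).1.pos
    · exact Nat.mul_pos (hp _).1.pos (hp _).1.pos
  have hprime_cop : ∀ x x', x ≠ x' → Nat.Coprime (e x) (e x') := fun x x' hx =>
    (Nat.coprime_primes (hp x).1 (hp x').1).mpr fun h => hx (he h)
  have hcop : ∀ i j, i ≠ j → Nat.Coprime (q i) (q j) := by
    intro i j hij
    have hc : ∀ a a', Nat.Coprime (e (i, a)) (e (j, a')) := fun a a' =>
      hprime_cop _ _ fun h => hij (congrArg Prod.fst h)
    simp only [hq, qq]
    split_ifs
    · exact hc _ _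
    · exact Nat.Coprime.mul_right (hc _ _) (hc _ _)
    · exact Nat.Coprime.mul_left (hc _ _) (hc _ _)
    · exact Nat.Coprime.mul_left (Nat.Coprime.mul_right (hc _ _) (hc _ _))
        (Nat.Coprime.mul_right (hc _ _) (hc _ _))
  have hqy : ∀ j, q j ≤ y ^ 2 := by
    intro j
    simp only [hq, qq]
    have hy1 : 1 ≤ y := (hp (j, (f j).1)).1.one_le.trans (hp (j, (f j).1)).2
    split_ifs
    · exact (hp _).2.trans (Nat.le_self_pow two_ne_zero y)
    · rw [pow_two]; exact Nat.mul_le_mul (hp _).2 (hp _).2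
  have hd1 : ∀ j, e (j, (f j).1) ∣ q j := by
    intro j
    simp only [hq, qq]
    split_ifs
    · exact dvd_rfl
    · exact dvd_mul_right _ _
  have hd2 : ∀ j, e (j, (f j).2) ∣ q j := by
    intro j
    simp only [hq, qq]
    split_ifs with h
    · rw [h]
    · exact dvd_mul_left _ _
  have hPer : ∀ j, Per (q j) (F j) := fun j =>
    Per.mul (Per.of_dvd (hX _) (hd1 j)) (Per.of_dvd (hX _) (hd2 j))
  have hF1 : ∀ j v, |F j v| ≤ 1 := by
    intro j v
    simp only [hF, abs_mul]
    exact mul_le_one₀ (hX1 _ _) (abs_nonneg _) (hX1 _ _)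
  have hprodle : ∏ j, q j ≤ y ^ (2 * m) := by
    calc ∏ j, q j ≤ ∏ _j : Fin m, y ^ 2 := Finset.prod_le_prod' fun j _ => hqy j
      _ = y ^ (2 * m) := by simp [pow_mul]
  have hprodpos : 0 < ∏ j, q j := Finset.prod_pos fun j _ => hqpos j
  have hPerAll : Per (∏ j, q j) (fun v => ∏ j, F j v) := by
    intro v w hv
    exact Finset.prod_congr rfl fun j _ =>
      (Per.of_dvd (hPer j) (Finset.dvd_prod_of_mem q (Finset.mem_univ j))) v w hv
  have hAll1 : ∀ v, |∏ j, F j v| ≤ 1 := by
    intro v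
    rw [Finset.abs_prod]
    exact Finset.prod_le_one (fun _ _ => abs_nonneg _) fun j _ => hF1 j v
  have h1 := t1 ι (∏ j, q j) (fun v => ∏ j, F j v) hprodpos hPerAll hAll1 H b
    (hprodle.trans hy)
  have h2 := t2 ι (Fin m) q F hqpos hcop hPer
  have hAv : Av (∏ j, q j) (fun v => ∏ j, F j v) ≤ if ∀ j, (f j).1 = (f j).2 then 1 else 0 := by
    rw [h2]
    split_ifs with h
    · refine (le_abs_self _).trans ?_
      rw [Finset.abs_prod]
      exact Finset.prod_le_one (fun _ _ => abs_nonneg _) fun j _ => av_le (hqpos j) (hF1 j)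
    · push Not at h
      obtain ⟨j, hj⟩ := h
      have : Av (q j) (F j) = 0 := by
        have h3 := t2 ι Bool (fun c => if c then e (j, (f j).1) else e (j, (f j).2))
          (fun c => if c then X (j, (f j).1) else X (j, (f j).2)) ?_ ?_ ?_
        · rw [Fintype.prod_bool, Fintype.prod_bool] at h3
          simp only [if_true, Bool.false_eq_true, if_false, hX0, mul_zero, Fintype.prod_bool] at h3
          simp only [hq, qq, if_neg hj, hF]
          exact h3
        · intro c
          cases c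
          · simpa using (hp _).1.pos
          · simpa using (hp _).1.pos
        · intro c c' hcc
          have hne : ((j, (f j).1) : Fin m × Fin K) ≠ (j, (f j).2) := fun h => hj (by
            simpa using congrArg Prod.snd h)
          cases c <;> cases c'
          · exact absurd rfl hcc
          · simpa using hprime_cop _ _ hne.symm
          · simpa using hprime_cop _ _ hne
          · exact absurd rfl hcc
        · intro c
          cases c
          · simpa using hX (j, (f j).2)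
          · simpa using hX (j, (f j).1)
      rw [Finset.prod_eq_zero (Finset.mem_univ j) this]
  have hS : (0 : ℝ) ≤ (2 * (H : ℝ) + 1) ^ (Fintype.card ι) := by positivity
  have hb1 := (abs_le.mp h1).2
  have hqR : ((∏ j, q j : ℕ) : ℝ) ≤ (y : ℝ) ^ (2 * m) := by exact_mod_cast hprodle
  have hb2 : (Fintype.card ι : ℝ) * 2 ^ (Fintype.card ι) * ((∏ j, q j : ℕ) : ℝ) *
        (2 * (H : ℝ) + 1) ^ (Fintype.card ι - 1) ≤
      (Fintype.card ι : ℝ) * 2 ^ (Fintype.card ι) * (y : ℝ) ^ (2 * m) *
          (2 * (H : ℝ) + 1) ^ (Fintype.card ι - 1) := by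
    gcongr
  have hb3 : (2 * (H : ℝ) + 1) ^ (Fintype.card ι) * Av (∏ j, q j) (fun v => ∏ j, F j v) ≤
      if ∀ j, (f j).1 = (f j).2 then (2 * (H : ℝ) + 1) ^ (Fintype.card ι) else 0 := by
    calc _ ≤ (2 * (H : ℝ) + 1) ^ (Fintype.card ι) *
          (if ∀ j, (f j).1 = (f j).2 then (1 : ℝ) else 0) := mul_le_mul_of_nonneg_left hAv hS
      _ = _ := by split_ifs <;> simp
  have hgoal : ∑ v ∈ bx b H, ∏ j, (X (j, (f j).1) v * X (j, (f j).2) v) =
      ∑ v ∈ bx b H, (fun v => ∏ j, F j v) v := rfl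
  rw [hgoal]
  linarith

theorem diag_card (m K : ℕ) :
    (Finset.univ.filter fun f : Fin m → Fin K × Fin K => ∀ j, (f j).1 = (f j).2).card = K ^ m := by
  classical
  have : (Finset.univ.filter fun f : Fin m → Fin K × Fin K => ∀ j, (f j).1 = (f j).2) =
      (Finset.univ : Finset (Fin m → Fin K)).map
        ⟨fun g j => (g j, g j), fun g g' h => by
          funext j
          simpa using congrArg Prod.fst (congrFun h j)⟩ := by
    ext f
    simp only [Finset.mem_filter, Finset.mem_univ, true_and, Finset.mem_map]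
    constructor
    · intro h
      exact ⟨fun j => (f j).1, funext fun j => Prod.ext rfl (h j)⟩
    · rintro ⟨g, rfl⟩ j
      rfl
  rw [this, Finset.card_map]
  simp

end Task3

theorem t3 : T1 → T2 → T3 := by
  intro t1 t2 ι _ _ m K y H e he hp X hX hX1 hX0 hy b
  classical
  have hexp : ∀ v, ∏ j, (∑ k, X (j, k) v) ^ 2 =
      ∑ f : Fin m → Fin K × Fin K, ∏ j, (X (j, (f j).1) v * X (j, (f j).2) v) := by
    intro v
    have h1 : ∀ j : Fin m, (∑ k, X (j, k) v) ^ 2 =
        ∑ a : Fin K × Fin K, X (j, a.1) v * X (j, a.2) v := by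
      intro j
      rw [pow_two, Finset.sum_mul_sum, Fintype.sum_prod_type]
    rw [Finset.prod_congr rfl fun j _ => h1 j, Finset.prod_univ_sum, Fintype.piFinset_univ]
  rw [Finset.sum_congr rfl fun v _ => hexp v, Finset.sum_comm]
  refine (Finset.sum_le_sum fun f _ =>
    Task3.main t1 t2 m K y H e he hp X hX hX1 hX0 hy b f).trans ?_
  rw [Finset.sum_add_distrib, ← Finset.sum_filter, Finset.sum_const, Finset.sum_const,
    Task3.diag_card, nsmul_eq_mul, nsmul_eq_mul]
  have hc : (Finset.univ : Finset (Fin m → Fin K × Fin K)).card = K ^ (2 * m) := by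
    simp [pow_mul, pow_two]
  rw [hc]
  push_cast
  rw [mul_comm ((K : ℝ) ^ m)]

end Pool.Agent.H684R3.Smo
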