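import Pool.Agent.H684R3.Smo.Stmts

set_option autoImplicit false

/-! Task 4 of the project H684-SMO. -/

namespace Pool.Agent.H684R3.Smo

/-- sums over the residues as sums over `ZMod p` -/
theorem sum_residues {ι : Type} [Fintype ι] [DecidableEq ι] (p : ℕ) [NeZero p]
    (f : (ι → ZMod p) → ℝ) :
    ∑ r ∈ Fintype.piFinset (fun _ : ι => Finset.Ico (0 : ℤ) p), f (fun i => (r i : ZMod p)) =
      ∑ z : ι → ZMod p, f z := by
  refine Finset.sum_bij' (fun r _ => fun i => (r i : ZMod p))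
    (fun z _ => fun i => ((z i).val : ℤ)) ?_ ?_ ?_ ?_ ?_
  · intro r _
    exact Finset.mem_univ _
  · intro z _
    rw [Fintype.mem_piFinset]
    intro i
    rw [Finset.mem_Ico]
    exact ⟨by positivity, by exact_mod_cast ZMod.val_lt (z i)⟩
  · intro r hr
    funext i
    rw [Fintype.mem_piFinset] at hr
    have h1 := Finset.mem_Ico.1 (hr i)
    change (((r i : ZMod p).val : ℕ) : ℤ) = r i
    rw [ZMod.val_intCast, Int.emod_eq_of_lt h1.1 h1.2]
  · intro z _
    funext i
    change (((z i).val : ℤ) : ZMod p) = z i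
    rw [Int.cast_natCast, ZMod.natCast_val, ZMod.cast_id', id]
  · intro r _
    rfl

theorem t4 : T3 → T4 := by
  intro h3 ι _ _ G κ hκ m K y H e he hG hy b
  classical
  set D := Fintype.card ι with hD
  let γ : Fin m × Fin K → ℝ := fun x => (Nat.card (G (e x)) : ℝ) / (e x : ℝ) ^ D
  let X : Fin m × Fin K → (ι → ℤ) → ℝ := fun x v =>
    (if (fun i => (v i : ZMod (e x))) ∈ G (e x) then 1 else 0) - γ x
  have hpos : ∀ x, (0 : ℝ) < (e x : ℝ) ^ D := fun x => by
    have := (hG x).1.pos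
    positivity
  have hγ0 : ∀ x, κ ≤ γ x := fun x => by
    change κ ≤ (Nat.card (G (e x)) : ℝ) / (e x : ℝ) ^ D
    rw [le_div_iff₀ (hpos x)]
    exact (hG x).2.2
  have hγ1 : ∀ x, γ x ≤ 1 := fun x => by
    change (Nat.card (G (e x)) : ℝ) / (e x : ℝ) ^ D ≤ 1
    rw [div_le_one (hpos x)]
    have : NeZero (e x) := ⟨(hG x).1.ne_zero⟩
    have h1 : Nat.card (G (e x)) ≤ Nat.card (ι → ZMod (e x)) :=
      Finite.card_subtype_le _
    rw [Nat.card_fun, Nat.card_zmod, Nat.card_eq_fintype_card (α := ι)] at h1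
    exact_mod_cast h1
  have hPer : ∀ x, Per (e x) (X x) := by
    intro x v w hvw
    have h1 : (fun i => (v i : ZMod (e x))) = fun i => (w i : ZMod (e x)) := by
      funext i
      have h2 := hvw i
      rw [← ZMod.intCast_zmod_eq_zero_iff_dvd] at h2
      rw [Int.cast_sub, sub_eq_zero] at h2
      exact h2
    change (if (fun i => (v i : ZMod (e x))) ∈ G (e x) then (1 : ℝ) else 0) - γ x =
      (if (fun i => (w i : ZMod (e x))) ∈ G (e x) then (1 : ℝ) else 0) - γ x
    rw [h1]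
  have habs : ∀ x v, |X x v| ≤ 1 := by
    intro x v
    change |(if (fun i => (v i : ZMod (e x))) ∈ G (e x) then (1 : ℝ) else 0) - γ x| ≤ 1
    have h0 := hγ0 x
    have h1 := hγ1 x
    rw [abs_le]
    split_ifs <;> constructor <;> linarith
  have hAv : ∀ x, Av (e x) (X x) = 0 := by
    intro x
    have : NeZero (e x) := ⟨(hG x).1.ne_zero⟩
    rw [Av, div_eq_zero_iff]
    left
    have h1 := sum_residues (ι := ι) (e x)
      (fun z => (if z ∈ G (e x) then (1 : ℝ) else 0) - γ x)
    have h2 : ∑ r ∈ Fintype.piFinset (fun _ : ι => Finset.Ico (0 : ℤ) (e x)), X x r =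
        ∑ z : ι → ZMod (e x), ((if z ∈ G (e x) then (1 : ℝ) else 0) - γ x) := h1
    rw [h2, Finset.sum_sub_distrib, Finset.sum_const, Finset.card_univ, Fintype.card_fun,
      ZMod.card, Finset.sum_boole]
    have h3 : ((Finset.univ.filter fun z : ι → ZMod (e x) => z ∈ G (e x)).card : ℝ) =
        (Nat.card (G (e x)) : ℝ) := by
      rw [Nat.card_eq_fintype_card, ← Set.toFinset_card]
      congr 2
      ext z
      simp
    rw [h3, nsmul_eq_mul]
    change (Nat.card (G (e x)) : ℝ) -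
      ((e x ^ Fintype.card ι : ℕ) : ℝ) * ((Nat.card (G (e x)) : ℝ) / (e x : ℝ) ^ D) = 0
    rw [← hD, Nat.cast_pow, mul_div_cancel₀ _ (hpos x).ne', sub_self]
  refine le_trans ?_ (h3 ι m K y H e he (fun x => ⟨(hG x).1, (hG x).2.1⟩) X hPer habs hAv hy b)
  have hc : Nat.card {v : ι → ℤ // v ∈ bx b H ∧ ∀ x, (fun i => (v i : ZMod (e x))) ∉ G (e x)} =
      ((bx b H).filter fun v => ∀ x, (fun i => (v i : ZMod (e x))) ∉ G (e x)).card := by
    have h1 : Nat.card {v : ι → ℤ // v ∈ bx b H ∧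
        ∀ x, (fun i => (v i : ZMod (e x))) ∉ G (e x)} =
        Nat.card {v : ι → ℤ // v ∈ (bx b H).filter
          fun v => ∀ x, (fun i => (v i : ZMod (e x))) ∉ G (e x)} :=
      Nat.card_congr (Equiv.subtypeEquivRight fun v => by rw [Finset.mem_filter])
    rw [h1, Nat.card_eq_fintype_card, Fintype.card_coe]
  rw [hc, ← nsmul_eq_mul]
  refine le_trans (Finset.card_nsmul_le_sum _
    (fun v => ∏ j, (∑ k, X (j, k) v) ^ 2) _ ?_)
    (Finset.sum_le_sum_of_subset_of_nonneg (Finset.filter_subset _ _) ?_)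
  · intro v hv
    have hv2 := (Finset.mem_filter.1 hv).2
    have h1 : ∀ j : Fin m, (κ * K) ^ 2 ≤ (∑ k, X (j, k) v) ^ 2 := by
      intro j
      have h2 : ∑ k, X (j, k) v = - ∑ k, γ (j, k) := by
        rw [← Finset.sum_neg_distrib]
        refine Finset.sum_congr rfl fun k _ => ?_
        change (if (fun i => (v i : ZMod (e (j, k)))) ∈ G (e (j, k)) then (1 : ℝ) else 0) -
          γ (j, k) = - γ (j, k)
        rw [if_neg (hv2 (j, k)), zero_sub]
      rw [h2, neg_sq]
      have h3 : κ * K ≤ ∑ k, γ (j, k) := by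
        have h4 : ∑ _k : Fin K, κ ≤ ∑ k, γ (j, k) := Finset.sum_le_sum fun k _ => hγ0 (j, k)
        rw [Finset.sum_const, Finset.card_univ, Fintype.card_fin, nsmul_eq_mul] at h4
        linarith
      exact pow_le_pow_left₀ (by positivity) h3 2
    calc (κ * K) ^ (2 * m) = ∏ _j : Fin m, (κ * K) ^ 2 := by
          rw [Finset.prod_const, Finset.card_univ, Fintype.card_fin, ← pow_mul]
      _ ≤ ∏ j, (∑ k, X (j, k) v) ^ 2 :=
          Finset.prod_le_prod (fun j _ => by positivity) fun j _ => h1 j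
  · intro v _ _
    exact Finset.prod_nonneg fun j _ => sq_nonneg _

end Pool.Agent.H684R3.Smo
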