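import Pool.Agent.H684R3.Smo.Stmts

set_option autoImplicit false

/-! Task 5 of the project H684-SMO (helper721): the asymptotic form of the counting bound. -/

namespace Pool.Agent.H684R3.Smo
open Filter

/-- conditions on `t = log H` which hold eventually -/
lemma t5_ev (y₀ : ℕ) (κ θ A ε η E : ℝ) (hA : 0 < A) (hε : 0 < ε) (hη : 0 < η) :
    ∀ᶠ t : ℝ in atTop, Real.exp 1 ≤ t ∧ 2 * ((y₀ : ℝ) + 1) ≤ t ^ A ∧ 2 * Real.log t ≤ η * t ∧
      η ≤ Real.log t ∧ 2 * (2 : ℝ) ^ θ ≤ t ^ ε ∧ 1 / κ ^ 2 ≤ t ^ (ε / 2) ∧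
      Real.log 2 ≤ ε * η / 8 * t ∧ |Real.log κ| ≤ A * Real.log t ∧ E ≤ Real.exp (t / 4) := by
  have hlog := Real.tendsto_log_atTop
  have h1 : ∀ᶠ t : ℝ in atTop, Real.exp 1 ≤ t := eventually_ge_atTop _
  have h2 : ∀ᶠ t : ℝ in atTop, 2 * ((y₀ : ℝ) + 1) ≤ t ^ A :=
    (tendsto_rpow_atTop hA).eventually_ge_atTop _
  have h3 : ∀ᶠ t : ℝ in atTop, 2 * Real.log t ≤ η * t := by
    have := Real.isLittleO_log_id_atTop.def (c := η / 2) (by positivity)
    filter_upwards [this, eventually_ge_atTop (1 : ℝ)] with t ht ht1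
    have h5 : Real.log t ≤ η / 2 * t := by
      have h6 := le_trans (le_abs_self _) ht
      rwa [id_eq, Real.norm_of_nonneg (by linarith)] at h6
    linarith
  have h4 : ∀ᶠ t : ℝ in atTop, η ≤ Real.log t := hlog.eventually_ge_atTop _
  have h5 : ∀ᶠ t : ℝ in atTop, 2 * (2 : ℝ) ^ θ ≤ t ^ ε :=
    (tendsto_rpow_atTop hε).eventually_ge_atTop _
  have h6 : ∀ᶠ t : ℝ in atTop, 1 / κ ^ 2 ≤ t ^ (ε / 2) :=
    (tendsto_rpow_atTop (by positivity)).eventually_ge_atTop _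
  have h7 : ∀ᶠ t : ℝ in atTop, Real.log 2 ≤ ε * η / 8 * t :=
    (tendsto_id.const_mul_atTop (by positivity : 0 < ε * η / 8)).eventually_ge_atTop _
  have h8 : ∀ᶠ t : ℝ in atTop, |Real.log κ| ≤ A * Real.log t :=
    (hlog.const_mul_atTop hA).eventually_ge_atTop _
  have h9 : ∀ᶠ t : ℝ in atTop, E ≤ Real.exp (t / 4) :=
    (Real.tendsto_exp_atTop.comp
      (tendsto_id.atTop_div_const (by norm_num : (0 : ℝ) < 4))).eventually_ge_atTop _
  filter_upwards [h1, h2, h3, h4, h5, h6, h7, h8, h9] with t a1 a2 a3 a4 a5 a6 a7 a8 a9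
  exact ⟨a1, a2, a3, a4, a5, a6, a7, a8, a9⟩

/-- The choice of the parameters. -/
lemma t5_param (y₀ : ℕ) (κ θ A ε η δ t : ℝ) (N : ℕ → ℕ) (hκ : 0 < κ) (hθ : 0 < θ) (hA : 0 < A)
    (hε : 0 < ε) (hAε : A * θ = 1 + 2 * ε) (hη : η = 1 / (16 * A)) (hδ1 : δ ≤ ε * η / 8)
    (hδ0 : 0 < δ)
    (hN : ∀ y : ℕ, y₀ ≤ y → (y : ℝ) ^ θ ≤ (N y : ℝ))
    (c1 : Real.exp 1 ≤ t) (c2 : 2 * ((y₀ : ℝ) + 1) ≤ t ^ A) (c3 : 2 * Real.log t ≤ η * t)
    (c4 : η ≤ Real.log t) (c5 : 2 * (2 : ℝ) ^ θ ≤ t ^ ε) (c6 : 1 / κ ^ 2 ≤ t ^ (ε / 2))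
    (c7 : Real.log 2 ≤ ε * η / 8 * t) (c8 : |Real.log κ| ≤ A * Real.log t) :
    ∃ m K y : ℕ, (y : ℝ) ≤ t ^ A ∧ m * K ≤ N y ∧ 0 < K ∧
      (y : ℝ) ^ (2 * m) ≤ Real.exp (t / 8) ∧ Real.exp (-(t / 8)) ≤ κ ^ (2 * m) ∧
      2 * Real.exp (δ * t) ≤ (κ ^ 2 * K) ^ m := by
  have hη0 : 0 < η := by rw [hη]; positivity
  have hAη : A * η = 1 / 16 := by rw [hη]; field_simp
  have ht0 : 0 < t := lt_of_lt_of_le (Real.exp_pos 1) c1
  have ht1 : 1 ≤ t := le_trans (by have := Real.add_one_le_exp (1 : ℝ); linarith) c1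
  have hs1 : 1 ≤ Real.log t := (Real.le_log_iff_exp_le ht0).2 c1
  set s := Real.log t with hs
  have hs0 : 0 < s := by linarith
  have hts : t = Real.exp s := (Real.exp_log ht0).symm
  set y := ⌊t ^ A⌋₊ with hy
  have hy1 : (y : ℝ) ≤ t ^ A := Nat.floor_le (by positivity)
  have hy2 : t ^ A < y + 1 := Nat.lt_floor_add_one _
  have hy0' : (0 : ℝ) ≤ (y₀ : ℝ) := Nat.cast_nonneg _
  have hy3 : y₀ ≤ y := by
    have : (y₀ : ℝ) ≤ y := by linarith
    exact_mod_cast this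
  have hy4 : t ^ A / 2 ≤ y := by linarith
  set m := ⌊η * t / s⌋₊ with hm
  have hm1 : (m : ℝ) ≤ η * t / s := Nat.floor_le (by positivity)
  have hm2 : η * t / s < m + 1 := Nat.lt_floor_add_one _
  have hm3 : (2 : ℝ) ≤ η * t / s := by
    rw [le_div_iff₀ hs0]; exact c3
  have hm4 : η * t / s / 2 ≤ m := by linarith
  have hm5 : (m : ℝ) * s ≤ η * t := by
    rwa [le_div_iff₀ hs0] at hm1
  have hm6 : η * t / 2 ≤ (m : ℝ) * s := by
    have : η * t / s / 2 * s ≤ m * s := mul_le_mul_of_nonneg_right hm4 hs0.le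
    have h2 : η * t / s / 2 * s = η * t / 2 := by field_simp
    linarith
  have hm7 : 0 < m := by
    have : (0 : ℝ) < m := by linarith
    exact_mod_cast this
  have hm8 : (m : ℝ) ≤ t := by
    refine le_trans hm1 ?_
    rw [div_le_iff₀ hs0]
    nlinarith
  set K := N y / m with hK
  have hK1 : N y < m * (K + 1) := Nat.lt_mul_div_succ (N y) hm7
  have hK1' : (N y : ℝ) < m * (K + 1) := by exact_mod_cast hK1
  have hte : 0 < t ^ ε := Real.rpow_pos_of_pos ht0 _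
  have hte1 : 1 ≤ t ^ ε := Real.one_le_rpow ht1 hε.le
  have h2θ : (0 : ℝ) < 2 ^ θ := by positivity
  have hN1 : 2 * t * t ^ ε ≤ (N y : ℝ) := by
    refine le_trans ?_ (hN y hy3)
    have h1 : (t ^ A / 2) ^ θ ≤ (y : ℝ) ^ θ := Real.rpow_le_rpow (by positivity) hy4 hθ.le
    refine le_trans ?_ h1
    rw [Real.div_rpow (by positivity) (by norm_num), ← Real.rpow_mul ht0.le, hAε,
      le_div_iff₀ h2θ, Real.rpow_add ht0, Real.rpow_one, two_mul ε, Real.rpow_add ht0]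
    have h3 : 2 * t * t ^ ε * 2 ^ θ = (t * t ^ ε) * (2 * 2 ^ θ) := by ring
    have h4 : t * (t ^ ε * t ^ ε) = (t * t ^ ε) * t ^ ε := by ring
    rw [h3, h4]
    exact mul_le_mul_of_nonneg_left c5 (by positivity)
  have hK2 : t ^ ε ≤ K := by
    have h1 : 2 * t * t ^ ε < t * (K + 1) := by
      refine lt_of_le_of_lt hN1 (lt_of_lt_of_le hK1' ?_)
      exact mul_le_mul_of_nonneg_right hm8 (by positivity)
    have h2 : 2 * t ^ ε < K + 1 := by
      have h3 : t * (2 * t ^ ε) < t * (K + 1) := by linarith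
      exact lt_of_mul_lt_mul_left h3 ht0.le
    linarith
  have hK3 : 0 < K := by
    have : (0 : ℝ) < K := by linarith
    exact_mod_cast this
  refine ⟨m, K, y, hy1, Nat.mul_div_le (N y) m, hK3, ?_, ?_, ?_⟩
  · have h1 : (y : ℝ) ^ (2 * m) ≤ (t ^ A) ^ (2 * m) := pow_le_pow_left₀ (by positivity) hy1 _
    refine le_trans h1 ?_
    rw [Real.rpow_def_of_pos ht0, ← Real.exp_nat_mul]
    apply Real.exp_le_exp.2
    push_cast
    have : 2 * (m : ℝ) * (Real.log t * A) = 2 * A * (m * s) := by rw [hs]; ring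
    rw [this]
    nlinarith
  · rw [← Real.exp_log hκ, ← Real.exp_nat_mul]
    apply Real.exp_le_exp.2
    push_cast
    have h1 : -(A * s) ≤ Real.log κ := by
      have := neg_abs_le (Real.log κ)
      linarith
    have h2 : (0 : ℝ) ≤ m := Nat.cast_nonneg _
    have h3 : 2 * (m : ℝ) * -(A * s) ≤ 2 * (m : ℝ) * Real.log κ :=
      mul_le_mul_of_nonneg_left h1 (by positivity)
    nlinarith
  · have h1 : t ^ (ε / 2) ≤ κ ^ 2 * K := by
      have h2 : t ^ ε = t ^ (ε / 2) * t ^ (ε / 2) := by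
        rw [← Real.rpow_add ht0]; congr 1; ring
      have h3 : 0 < t ^ (ε / 2) := Real.rpow_pos_of_pos ht0 _
      have h4 : κ ^ 2 * (t ^ (ε / 2) * t ^ (ε / 2)) ≤ κ ^ 2 * K := by
        rw [← h2]; exact mul_le_mul_of_nonneg_left hK2 (by positivity)
      have h5 : 1 ≤ κ ^ 2 * t ^ (ε / 2) := by
        rw [div_le_iff₀ (by positivity)] at c6
        linarith
      calc t ^ (ε / 2) = 1 * t ^ (ε / 2) := by ring
        _ ≤ (κ ^ 2 * t ^ (ε / 2)) * t ^ (ε / 2) := mul_le_mul_of_nonneg_right h5 h3.le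
        _ = κ ^ 2 * (t ^ (ε / 2) * t ^ (ε / 2)) := by ring
        _ ≤ κ ^ 2 * K := h4
    have h6 : (t ^ (ε / 2)) ^ m ≤ (κ ^ 2 * K) ^ m := pow_le_pow_left₀ (by positivity) h1 _
    refine le_trans ?_ h6
    rw [Real.rpow_def_of_pos ht0, ← Real.exp_nat_mul]
    have h7 : (2 : ℝ) = Real.exp (Real.log 2) := (Real.exp_log (by norm_num)).symm
    have h8 : 2 * Real.exp (δ * t) = Real.exp (Real.log 2 + δ * t) := by
      rw [Real.exp_add, ← h7]
    rw [h8]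
    apply Real.exp_le_exp.2
    have h9 : (m : ℝ) * (Real.log t * (ε / 2)) = ε / 2 * (m * s) := by rw [hs]; ring
    rw [h9]
    have h10 : δ * t ≤ ε * η / 8 * t := mul_le_mul_of_nonneg_right hδ1 ht0.le
    have h11 : ε / 2 * (η * t / 2) ≤ ε / 2 * (m * s) :=
      mul_le_mul_of_nonneg_left hm6 (by positivity)
    nlinarith

/-- The final estimate. -/
lemma t5_final (D m K y : ℕ) (C S κ δ t h : ℝ) (hκ : 0 < κ) (hK : 0 < K)
    (hδ2 : δ ≤ 1 / 2) (ht : 0 < t) (hh : h = Real.exp t) (hS : h ≤ S)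
    (c9 : (D : ℝ) * 2 ^ D * 2 ≤ Real.exp (t / 4))
    (p1 : (y : ℝ) ^ (2 * m) ≤ Real.exp (t / 8)) (p2 : Real.exp (-(t / 8)) ≤ κ ^ (2 * m))
    (p3 : 2 * Real.exp (δ * t) ≤ (κ ^ 2 * K) ^ m)
    (hC : C * (κ * K) ^ (2 * m) ≤ S ^ D * (K : ℝ) ^ m +
      (K : ℝ) ^ (2 * m) * ((D : ℝ) * 2 ^ D * (y : ℝ) ^ (2 * m) * S ^ (D - 1))) :
    C ≤ S ^ D * h ^ (-δ) := by
  have hh0 : 0 < h := by rw [hh]; exact Real.exp_pos t
  have hS0 : 0 < S := lt_of_lt_of_le hh0 hS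
  have hKr : (0 : ℝ) < K := by exact_mod_cast hK
  have hlogh : Real.log h = t := by rw [hh, Real.log_exp]
  have hhδ : h ^ (-δ) = Real.exp (-(δ * t)) := by
    rw [Real.rpow_def_of_pos hh0, hlogh]; congr 1; ring
  rw [hhδ]
  have hpos : 0 < (κ * K) ^ (2 * m) := by positivity
  have hsplit : (κ * K) ^ (2 * m) = (κ ^ 2 * K) ^ m * (K : ℝ) ^ m := by
    rw [pow_mul, ← mul_pow]; congr 1; ring
  have hee : Real.exp (-(δ * t)) * Real.exp (δ * t) = 1 := by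
    rw [← Real.exp_add]; simp
  have h1 : S ^ D * (K : ℝ) ^ m ≤ S ^ D * Real.exp (-(δ * t)) / 2 * (κ * K) ^ (2 * m) := by
    rw [hsplit]
    have h3 : 1 ≤ Real.exp (-(δ * t)) / 2 * (κ ^ 2 * K) ^ m := by
      have h4 : Real.exp (-(δ * t)) / 2 * (2 * Real.exp (δ * t)) ≤
          Real.exp (-(δ * t)) / 2 * (κ ^ 2 * K) ^ m :=
        mul_le_mul_of_nonneg_left p3 (by positivity)
      linarith
    have h5 : 0 ≤ S ^ D * (K : ℝ) ^ m := by positivity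
    calc S ^ D * (K : ℝ) ^ m = S ^ D * (K : ℝ) ^ m * 1 := by ring
      _ ≤ S ^ D * (K : ℝ) ^ m * (Real.exp (-(δ * t)) / 2 * (κ ^ 2 * K) ^ m) :=
        mul_le_mul_of_nonneg_left h3 h5
      _ = _ := by ring
  have h2 : (K : ℝ) ^ (2 * m) * ((D : ℝ) * 2 ^ D * (y : ℝ) ^ (2 * m) * S ^ (D - 1)) ≤
      S ^ D * Real.exp (-(δ * t)) / 2 * (κ * K) ^ (2 * m) := by
    rcases Nat.eq_zero_or_pos D with hD | hD
    · subst hD
      have : (K : ℝ) ^ (2 * m) * (((0 : ℕ) : ℝ) * 2 ^ 0 * (y : ℝ) ^ (2 * m) * S ^ (0 - 1)) = 0 := by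
        simp
      rw [this]; positivity
    · obtain ⟨D', rfl⟩ : ∃ D', D = D' + 1 := ⟨D - 1, by omega⟩
      have h3 : ((D' + 1 : ℕ) : ℝ) * 2 ^ (D' + 1) * (y : ℝ) ^ (2 * m) ≤
          S * Real.exp (-(δ * t)) / 2 * κ ^ (2 * m) := by
        have h4 : ((D' + 1 : ℕ) : ℝ) * 2 ^ (D' + 1) * 2 * (y : ℝ) ^ (2 * m) ≤
            Real.exp (t / 4) * Real.exp (t / 8) :=
          mul_le_mul c9 p1 (by positivity) (by positivity)
        have h5 : Real.exp (t / 4) * Real.exp (t / 8) =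
            Real.exp t * Real.exp (-(t / 2)) * Real.exp (-(t / 8)) := by
          rw [← Real.exp_add, ← Real.exp_add, ← Real.exp_add]; congr 1; ring
        have h6 : Real.exp t * Real.exp (-(t / 2)) * Real.exp (-(t / 8)) ≤
            S * Real.exp (-(δ * t)) * κ ^ (2 * m) := by
          refine mul_le_mul (mul_le_mul ?_ ?_ (by positivity) (by positivity)) p2
            (by positivity) (by positivity)
          · rw [← hh]; exact hS
          · apply Real.exp_le_exp.2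
            nlinarith
        linarith
      have h7 : (K : ℝ) ^ (2 * m) * (((D' + 1 : ℕ) : ℝ) * 2 ^ (D' + 1) * (y : ℝ) ^ (2 * m) *
          S ^ (D' + 1 - 1)) = ((K : ℝ) ^ (2 * m) * S ^ D') *
          (((D' + 1 : ℕ) : ℝ) * 2 ^ (D' + 1) * (y : ℝ) ^ (2 * m)) := by
        rw [Nat.add_sub_cancel]; ring
      have h8 : S ^ (D' + 1) * Real.exp (-(δ * t)) / 2 * (κ * K) ^ (2 * m) =
          ((K : ℝ) ^ (2 * m) * S ^ D') * (S * Real.exp (-(δ * t)) / 2 * κ ^ (2 * m)) := by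
        rw [mul_pow, pow_succ]; ring
      rw [h7, h8]
      exact mul_le_mul_of_nonneg_left h3 (by positivity)
  have h9 : C * (κ * K) ^ (2 * m) ≤ S ^ D * Real.exp (-(δ * t)) * (κ * K) ^ (2 * m) := by
    linarith
  exact le_of_mul_le_mul_right h9 hpos

theorem t5 : T4 → T5 := by
  intro h4 ι _ _ P G κ θ A hκ hθ hA hAθ hP hN
  obtain ⟨y₀, hy₀⟩ := hN
  set ε : ℝ := (A * θ - 1) / 2 with hε
  have hε0 : 0 < ε := by rw [hε]; linarith
  set η : ℝ := 1 / (16 * A) with hη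
  have hη0 : 0 < η := by positivity
  set δ : ℝ := min (ε * η / 8) (1 / 2) with hδ
  have hδ0 : 0 < δ := lt_min (by positivity) (by norm_num)
  have hlogH : Tendsto (fun H : ℕ => Real.log (H : ℝ)) atTop atTop :=
    Real.tendsto_log_atTop.comp tendsto_natCast_atTop_atTop
  have hev := hlogH.eventually (t5_ev y₀ κ θ A ε η
    ((Fintype.card ι : ℝ) * 2 ^ (Fintype.card ι) * 2) hA hε0 hη0)
  obtain ⟨H₀, hH₀⟩ := eventually_atTop.1 hev
  refine ⟨δ, hδ0, H₀, fun H hH b => ?_⟩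
  obtain ⟨c1, c2, c3, c4, c5, c6, c7, c8, c9⟩ := hH₀ H hH
  have ht0 : 0 < Real.log (H : ℝ) := lt_of_lt_of_le (Real.exp_pos 1) c1
  have hHpos : (0 : ℝ) < H := by
    rcases Nat.eq_zero_or_pos H with h | h
    · subst h; simp at ht0
    · exact_mod_cast h
  obtain ⟨m, K, y, hyt, hmK, hK, p1, p2, p3⟩ := t5_param y₀ κ θ A ε η δ (Real.log H)
    (fun y => Nat.card {p : ℕ // P p ∧ p ≤ y}) hκ hθ hA hε0 (by rw [hε]; ring) hη
    (min_le_left _ _) hδ0 hy₀ c1 c2 c3 c4 c5 c6 c7 c8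
  have hfin : Finite {p : ℕ // P p ∧ p ≤ y} :=
    (Set.Finite.subset (Set.finite_le_nat y) (fun p hp => hp.2) :
      ({p : ℕ | P p ∧ p ≤ y}).Finite).to_subtype
  obtain ⟨f⟩ : Nonempty (Fin m × Fin K ↪ {p : ℕ // P p ∧ p ≤ y}) := by
    have := Fintype.ofFinite {p : ℕ // P p ∧ p ≤ y}
    refine Function.Embedding.nonempty_of_card_le ?_
    rw [Fintype.card_prod, Fintype.card_fin, Fintype.card_fin, ← Nat.card_eq_fintype_card]
    exact hmK
  have hexp : Real.exp (Real.log (H : ℝ)) = H := Real.exp_log hHpos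
  have hyH : y ^ (2 * m) ≤ 2 * H + 1 := by
    have h1 : (y : ℝ) ^ (2 * m) ≤ 2 * H + 1 := by
      refine le_trans p1 ?_
      have h2 : Real.exp (Real.log (H : ℝ) / 8) ≤ Real.exp (Real.log (H : ℝ)) :=
        Real.exp_le_exp.2 (by linarith)
      rw [hexp] at h2
      linarith
    exact_mod_cast h1
  have hmain := h4 ι G κ hκ m K y H (fun x => ((f x : {p : ℕ // P p ∧ p ≤ y}) : ℕ))
    (Subtype.val_injective.comp f.injective)
    (fun x => ⟨(hP _ (f x).2.1).1, (f x).2.2, (hP _ (f x).2.1).2⟩) hyH b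
  have hfin2 : Finite {v : ι → ℤ // v ∈ bx b H ∧
      ∀ x : Fin m × Fin K, (fun i => (v i : ZMod ((f x : {p : ℕ // P p ∧ p ≤ y}) : ℕ))) ∉
        G ((f x : {p : ℕ // P p ∧ p ≤ y}) : ℕ)} :=
    Finite.of_injective (fun v => (⟨v.1, v.2.1⟩ : {v // v ∈ bx b H})) (by
      intro v w hvw
      exact Subtype.ext (congrArg (fun z : {v // v ∈ bx b H} => z.1) hvw))
  have hcard : (Nat.card {v : ι → ℤ // v ∈ bx b H ∧ ∀ p, P p → (p : ℝ) ≤ Real.log H ^ A →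
      (fun i => (v i : ZMod p)) ∉ G p} : ℝ) ≤
      (Nat.card {v : ι → ℤ // v ∈ bx b H ∧
      ∀ x : Fin m × Fin K, (fun i => (v i : ZMod ((f x : {p : ℕ // P p ∧ p ≤ y}) : ℕ))) ∉
        G ((f x : {p : ℕ // P p ∧ p ≤ y}) : ℕ)} : ℝ) := by
    have : Nat.card {v : ι → ℤ // v ∈ bx b H ∧ ∀ p, P p → (p : ℝ) ≤ Real.log H ^ A →
      (fun i => (v i : ZMod p)) ∉ G p} ≤ Nat.card {v : ι → ℤ // v ∈ bx b H ∧
      ∀ x : Fin m × Fin K, (fun i => (v i : ZMod ((f x : {p : ℕ // P p ∧ p ≤ y}) : ℕ))) ∉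
        G ((f x : {p : ℕ // P p ∧ p ≤ y}) : ℕ)} := by
      refine Nat.card_le_card_of_injective (fun v => ⟨v.1, v.2.1, fun x => v.2.2 _ (f x).2.1
        (le_trans (by exact_mod_cast (f x).2.2) hyt)⟩) ?_
      intro v w hvw
      have h5 := Subtype.ext_iff.1 hvw
      exact Subtype.ext h5
    exact_mod_cast this
  refine t5_final (Fintype.card ι) m K y _ (2 * (H : ℝ) + 1) κ δ (Real.log H) H hκ hK
    (min_le_right _ _) ht0 hexp.symm (by linarith) c9 p1 p2 p3 ?_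
  exact le_trans (mul_le_mul_of_nonneg_right hcard (by positivity)) hmain

end Pool.Agent.H684R3.Smo
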