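import Pool.Agent.H684R3.Smo.Stmts

set_option autoImplicit false

/-!
Smoothed analysis of the Skolem Problem: task 7.
-/

namespace Pool.Agent.H684R3.Smo
open Pool.Agent.H884R2.Sko Polynomial Finset

open Classical in
theorem period_of_splits (p : ℕ) [Fact p.Prime] (hp2 : 2 < p) {d : ℕ}
    (c : Fin d → ZMod p) (h1 : (chi c).Splits) (h2 : (expand (ZMod p) 2 (chi c)).Splits)
    (hsep : (chi c).Separable) (h0 : (chi c).coeff 0 ≠ 0) (v : Fin d → ZMod p) (n : ℕ) :
    seq c v (n + (p - 1) / 2) = seq c v n := by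
  have hp : p.Prime := Fact.out
  have hne : chi c ≠ 0 := (chi_monic c).ne_zero
  set S : Finset (ZMod p) := (chi c).roots.toFinset with hS
  have hnd : (chi c).roots.Nodup := nodup_roots hsep
  have hval : S.val = (chi c).roots := by
    rw [hS, Multiset.toFinset_val, hnd.dedup]
  have hcard : S.card = d := by
    rw [Finset.card_def, hval, ← h1.natDegree_eq_card_roots, chi_natDegree]
  have hpoly : poly S = chi c := by
    unfold poly
    rw [Finset.prod_eq_multiset_prod, hval]
    exact (h1.eq_prod_roots_of_monic (chi_monic c)).symm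
  have hcoef : coef d S = c := by
    funext i
    unfold coef
    rw [hpoly, chi_coeff, neg_neg]
  have hT : p - 1 = 2 * ((p - 1) / 2) := by
    have hodd : p % 2 = 1 := (hp.eq_two_or_odd).resolve_left (by omega)
    omega
  have hST : ∀ a ∈ S, a ^ ((p - 1) / 2) = 1 := by
    intro a ha
    rw [hS, Multiset.mem_toFinset, mem_roots hne] at ha
    have ha0 : a ≠ 0 := by
      rintro rfl
      rw [IsRoot, ← coeff_zero_eq_eval_zero] at ha
      exact h0 ha
    have h4 : (X ^ 2 - C a : (ZMod p)[X]) ∣ expand (ZMod p) 2 (chi c) := by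
      have h5 := map_dvd (expand (ZMod p) 2) (dvd_iff_isRoot.2 ha)
      rwa [map_sub, expand_X, expand_C] at h5
    have h6 : expand (ZMod p) 2 (chi c) ≠ 0 := by
      rw [Ne, expand_eq_zero (by omega)]; exact hne
    have h7 := h2.of_dvd h6 h4
    obtain ⟨β, hβ⟩ := h7.exists_eval_eq_zero (by
      rw [degree_X_pow_sub_C (by omega)]
      exact_mod_cast (by omega : (2 : ℕ) ≠ 0))
    rw [eval_sub, eval_pow, eval_X, eval_C, sub_eq_zero] at hβ
    have hβ0 : β ≠ 0 := by
      rintro rfl
      rw [zero_pow (by omega)] at hβ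
      exact ha0 hβ.symm
    rw [← hβ, ← pow_mul, ← hT]
    exact ZMod.pow_card_sub_one_eq_one hβ0
  have h8 := seq_periodic d ((p - 1) / 2) S hcard hST v n
  rwa [hcoef] at h8

open Classical in
theorem t7 : T7 := by
  intro d c hd h0 hsq
  obtain ⟨r, hr0, hr⟩ := separable_mod (chi c) hsq
  set G : ℤ[X] := chi c * (expand ℤ 2 (chi c) * cyclotomic 2 ℤ) with hG
  have hGm : G.Monic := (chi_monic c).mul (((chi_monic c).expand (by omega)).mul
    (cyclotomic.monic 2 ℤ))
  refine ⟨G, 3 + r.natAbs + ((chi c).coeff 0).natAbs, hGm, fun p hp hpN hsp => ?_⟩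
  have : Fact p.Prime := ⟨hp⟩
  have hGne : G.map (Int.castRingHom (ZMod p)) ≠ 0 := (hGm.map _).ne_zero
  have hdv : ∀ z : ℤ, z ≠ 0 → z.natAbs < p → ¬ (p : ℤ) ∣ z := by
    intro z hz hzp hdvd
    have := Int.natAbs_dvd_natAbs.2 hdvd
    rw [Int.natAbs_natCast] at this
    exact absurd (Nat.le_of_dvd (Int.natAbs_pos.2 hz) this) (not_le.2 hzp)
  have hcm : (chi c).map (Int.castRingHom (ZMod p)) = chi (fun i => (c i : ZMod p)) := by
    rw [chi_map]; rfl
  have e1 : (chi (fun i => (c i : ZMod p))) ∣ G.map (Int.castRingHom (ZMod p)) := by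
    rw [← hcm, hG, Polynomial.map_mul]; exact dvd_mul_right _ _
  have e2 : expand (ZMod p) 2 (chi (fun i => (c i : ZMod p))) ∣
      G.map (Int.castRingHom (ZMod p)) := by
    rw [← hcm, ← map_expand, hG, Polynomial.map_mul, Polynomial.map_mul]
    exact (dvd_mul_right _ _).mul_left _
  have e3 : cyclotomic 2 (ZMod p) ∣ G.map (Int.castRingHom (ZMod p)) := by
    rw [← map_cyclotomic 2 (Int.castRingHom (ZMod p)), hG, Polynomial.map_mul,
      Polynomial.map_mul]
    exact (dvd_mul_left _ _).mul_left _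
  have hsep : (chi (fun i => (c i : ZMod p))).Separable := by
    rw [← hcm]
    exact hr p hp (hdv r hr0 (by omega))
  have hc0 : (chi (fun i => (c i : ZMod p))).coeff 0 ≠ 0 := by
    rw [← hcm, coeff_map, eq_intCast, Ne, ZMod.intCast_zmod_eq_zero_iff_dvd]
    exact hdv _ h0 (by omega)
  have hbad := card_bad_of_splits p 2 (by omega) hd _ (hsp.of_dvd hGne e1) (hsp.of_dvd hGne e2)
    (hsp.of_dvd hGne e3)
    (by
      intro h
      exact absurd (Nat.le_of_dvd (by omega) h) (by omega)) hsep hc0
  have hper := period_of_splits p (by omega) (fun i => (c i : ZMod p)) (hsp.of_dvd hGne e1)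
    (hsp.of_dvd hGne e2) hsep hc0
  have hcardeq : Nat.card {a : Fin d → ZMod p // GoodP (fun i => (c i : ZMod p)) a} =
      ((univ : Finset (Fin d → ZMod p)).filter
        (fun v => ¬ ∃ n, seq (fun i => (c i : ZMod p)) v n = 0)).card := by
    rw [Nat.card_eq_fintype_card, Fintype.card_subtype]
    congr 1
    apply Finset.filter_congr
    intro a _
    unfold GoodP
    constructor
    · rintro ⟨-, h⟩ ⟨n, hn⟩
      exact h n hn
    · intro h
      exact ⟨fun n => hper a n, fun n hn => h ⟨n, hn⟩⟩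
  rw [hcardeq]
  have hsum := Finset.card_filter_add_card_filter_not (s := (univ : Finset (Fin d → ZMod p)))
    (fun v => ∃ n, seq (fun i => (c i : ZMod p)) v n = 0)
  rw [Finset.card_univ, Fintype.card_fun, ZMod.card, Fintype.card_fin] at hsum
  rw [Fintype.card_fin]
  have h9 : (p : ℝ) ^ d = ((p ^ d : ℕ) : ℝ) := by push_cast; rfl
  rw [h9, ← hsum]
  have h10 : 2 * ((univ : Finset (Fin d → ZMod p)).filter
      (fun v => ∃ n, seq (fun i => (c i : ZMod p)) v n = 0)).card ≤
      ((univ : Finset (Fin d → ZMod p)).filter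
        (fun v => ∃ n, seq (fun i => (c i : ZMod p)) v n = 0)).card +
      ((univ : Finset (Fin d → ZMod p)).filter
        (fun v => ¬ ∃ n, seq (fun i => (c i : ZMod p)) v n = 0)).card := by
    rw [hsum]
    exact hbad
  have h11 : (2 : ℝ) * (((univ : Finset (Fin d → ZMod p)).filter
      (fun v => ∃ n, seq (fun i => (c i : ZMod p)) v n = 0)).card : ℝ) ≤
      (((univ : Finset (Fin d → ZMod p)).filter
        (fun v => ∃ n, seq (fun i => (c i : ZMod p)) v n = 0)).card : ℝ) +
      (((univ : Finset (Fin d → ZMod p)).filter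
        (fun v => ¬ ∃ n, seq (fun i => (c i : ZMod p)) v n = 0)).card : ℝ) := by
    exact_mod_cast h10
  push_cast
  linarith

end Pool.Agent.H684R3.Smo
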