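import Pool.Agent.H684R3.Smo.Stmts
import Pool.Agent.H692R2.USS.T5
import Pool.Agent.Helper923.HMertens

set_option autoImplicit false

/-!
Task T8: polynomially many primes with a prime of degree one above them (helper722).
-/

namespace Pool.Agent.H684R3.Smo

namespace T8Aux

open Finset Filter Topology NumberField IsDedekindDomain
open Pool.Agent.H921R2.TatePole Pool.Agent.H692R2.USS
open scoped Classical

variable (K : Type) [Field K] [NumberField K]

/-- the number of degree one primes above `n` as a real number (`0` if `n` is not prime) -/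
noncomputable def rr (n : ℕ) : ℝ := if h : n.Prime then (R K ⟨n, h⟩ : ℝ) else 0

lemma rr_coe (p : Nat.Primes) : rr K (p : ℕ) = R K p := by
  unfold rr
  rw [dif_pos p.2]
  rfl

lemma rr_nonneg (n : ℕ) : 0 ≤ rr K n := by
  unfold rr
  split_ifs
  · positivity
  · exact le_refl _

lemma rr_le (n : ℕ) : rr K n ≤ Module.finrank ℚ K := by
  unfold rr
  split_ifs with h
  · exact_mod_cast R_le _
  · positivity

/-- the weighted reciprocal sum -/
noncomputable def BB (L : ℕ) : ℝ := ∑ n ∈ (Finset.range (2 ^ L)).filter Nat.Prime, rr K n / n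

/-- the weighted Dirichlet series at `1 + 1 / L` -/
noncomputable def AA (L : ℕ) : ℝ := ∑' p : Nat.Primes, (R K p : ℝ) * w (1 + 1 / (L : ℝ)) p

lemma AA_log : ∃ C : ℝ, ∃ L0 : ℕ, ∀ L : ℕ, L0 ≤ L → |AA K L - Real.log L| ≤ C := by
  obtain ⟨C1, hC1⟩ := sum_R_bdd (K := K)
  obtain ⟨C2, hC2⟩ := W_sub_Lam_bdd
  have hev : ∀ᶠ x : ℝ in 𝓝[>] 1, |(∑' p : Nat.Primes, (R K p : ℝ) * w x p) - Lam x| ≤ C1 + C2 := by
    filter_upwards [hC1, hC2, self_mem_nhdsWithin] with x h1 h2 hx
    have hx1 : (1 : ℝ) < x := hx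
    have hs1 : Summable (fun p : Nat.Primes => ((R K p : ℝ) - 1) * w x p) :=
      bddmul_summable hx1 (C := Module.finrank ℚ K + 1) fun p => by
        have a1 : (R K p : ℝ) ≤ Module.finrank ℚ K := by exact_mod_cast R_le p
        have a0 : (0 : ℝ) ≤ (R K p : ℝ) := by positivity
        rw [abs_le]
        constructor <;> linarith [Nat.cast_nonneg (α := ℝ) (Module.finrank ℚ K)]
    have hW : W x = ∑' p, w x p := rfl
    have hsum : (∑' p : Nat.Primes, ((R K p : ℝ) - 1) * w x p) + W x =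
        ∑' p : Nat.Primes, (R K p : ℝ) * w x p := by
      rw [hW, ← Summable.tsum_add hs1 (w_summable hx1)]
      refine tsum_congr fun p => ?_
      ring
    rw [← hsum]
    have e : (∑' p : Nat.Primes, ((R K p : ℝ) - 1) * w x p) + W x - Lam x =
      (∑' p : Nat.Primes, ((R K p : ℝ) - 1) * w x p) + (W x - Lam x) := by ring
    rw [e]
    exact (abs_add_le _ _).trans (add_le_add h1 h2)
  have htend : Tendsto (fun L : ℕ => 1 + 1 / (L : ℝ)) atTop (𝓝[>] 1) := by
    rw [tendsto_nhdsWithin_iff]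
    constructor
    · have : Tendsto (fun L : ℕ => 1 + 1 / (L : ℝ)) atTop (𝓝 (1 + 0)) :=
        tendsto_const_nhds.add tendsto_one_div_atTop_nhds_zero_nat
      simpa using this
    · filter_upwards [eventually_ge_atTop 1] with L hL
      have hL' : (1 : ℝ) ≤ L := by exact_mod_cast hL
      have : (0 : ℝ) < 1 / (L : ℝ) := by positivity
      simp only [Set.mem_Ioi]
      linarith
  obtain ⟨L0, hL0⟩ := eventually_atTop.mp (htend.eventually hev)
  refine ⟨C1 + C2, max L0 1, fun L hL => ?_⟩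
  have hL1 : (1 : ℝ) ≤ L := by exact_mod_cast (le_max_right _ _).trans hL
  have h1 := hL0 L ((le_max_left _ _).trans hL)
  have h3 : Lam (1 + 1 / (L : ℝ)) = Real.log L := by
    unfold Lam
    congr 1
    field_simp
    ring
  rw [h3] at h1
  exact h1

lemma AA_le (L : ℕ) (hL : 1 ≤ L) : AA K L ≤ BB K L + Module.finrank ℚ K * 176 := by
  have hL' : (1 : ℝ) ≤ L := by exact_mod_cast hL
  have hLinv : (0 : ℝ) ≤ 1 / (L : ℝ) := by positivity
  set h : ℕ → ℝ := fun n => rr K n * (n : ℝ) ^ (-(1 + 1 / (L : ℝ))) with hh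
  have hh0 : ∀ n, 0 ≤ h n := fun n => mul_nonneg (rr_nonneg K n) (by positivity)
  apply Real.tsum_le_of_sum_le
  · intro p
    exact mul_nonneg (by positivity) (w_nonneg _ _)
  · intro F
    have e1 : ∑ p ∈ F, (R K p : ℝ) * w (1 + 1 / (L : ℝ)) p = ∑ p ∈ F, h (p : ℕ) := by
      refine Finset.sum_congr rfl fun p _ => ?_
      simp only [hh]
      rw [rr_coe]
      rfl
    rw [e1]
    have e2 : ∑ p ∈ F, h (p : ℕ) = ∑ n ∈ F.image (fun p : Nat.Primes => (p : ℕ)), h n := by
      rw [Finset.sum_image]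
      intro x _ y _ hxy
      exact Subtype.ext hxy
    rw [e2]
    set G := F.image (fun p : Nat.Primes => (p : ℕ)) with hG
    set M : ℕ := max L (G.sup id + 1) with hM
    have hsub : G ⊆ (Finset.range (2 ^ M)).filter Nat.Prime := by
      intro n hn
      have hn' := hn
      rw [hG, Finset.mem_image] at hn
      obtain ⟨p, hp, rfl⟩ := hn
      rw [Finset.mem_filter, Finset.mem_range]
      refine ⟨?_, p.2⟩
      have h3 : (p : ℕ) ≤ G.sup id := Finset.le_sup (f := id) hn'
      calc (p : ℕ) < 2 ^ (p : ℕ) := Nat.lt_two_pow_self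
        _ ≤ 2 ^ M := Nat.pow_le_pow_right (by norm_num)
            (h3.trans ((Nat.le_succ _).trans (le_max_right _ _)))
    have h1 : ∑ n ∈ G, h n ≤ ∑ n ∈ (Finset.range (2 ^ M)).filter Nat.Prime, h n :=
      Finset.sum_le_sum_of_subset_of_nonneg hsub fun n _ _ => hh0 n
    have hLM : L ≤ M := le_max_left _ _
    have e3 : (Finset.range (2 ^ M)).filter Nat.Prime =
        (Finset.range (2 ^ L)).filter Nat.Prime ∪
          (Finset.Ico (2 ^ L) (2 ^ M)).filter Nat.Prime := by
      rw [← Finset.filter_union]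
      congr 1
      rw [Finset.range_eq_Ico, Finset.range_eq_Ico, Finset.Ico_union_Ico_eq_Ico (Nat.zero_le _)
        (Nat.pow_le_pow_right (by norm_num) hLM)]
    have hd : Disjoint ((Finset.range (2 ^ L)).filter Nat.Prime)
        ((Finset.Ico (2 ^ L) (2 ^ M)).filter Nat.Prime) := by
      apply Finset.disjoint_filter_filter
      rw [Finset.range_eq_Ico]
      exact Finset.Ico_disjoint_Ico_consecutive _ _ _
    rw [e3, Finset.sum_union hd] at h1
    refine h1.trans (add_le_add ?_ ?_)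
    · unfold BB
      refine Finset.sum_le_sum fun n hn => ?_
      rw [Finset.mem_filter] at hn
      have hn1 : (1 : ℝ) ≤ n := by exact_mod_cast hn.2.one_lt.le
      have e5 : rr K n / n = rr K n * (n : ℝ) ^ (-1 : ℝ) := by
        rw [Real.rpow_neg_one, div_eq_mul_inv]
      rw [e5]
      simp only [hh]
      refine mul_le_mul_of_nonneg_left ?_ (rr_nonneg K n)
      apply Real.rpow_le_rpow_of_exponent_le hn1
      linarith
    · calc ∑ n ∈ (Finset.Ico (2 ^ L) (2 ^ M)).filter Nat.Prime, h n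
          ≤ ∑ n ∈ (Finset.Ico (2 ^ L) (2 ^ M)).filter Nat.Prime,
            (Module.finrank ℚ K : ℝ) * (n : ℝ) ^ (-(1 + 1 / (L : ℝ))) := by
            refine Finset.sum_le_sum fun n _ => ?_
            exact mul_le_mul_of_nonneg_right (rr_le K n) (by positivity)
        _ = (Module.finrank ℚ K : ℝ) * ∑ n ∈ (Finset.Ico (2 ^ L) (2 ^ M)).filter Nat.Prime,
            (n : ℝ) ^ (-(1 + 1 / (L : ℝ))) := by rw [Finset.mul_sum]
        _ ≤ Module.finrank ℚ K * 176 :=
            mul_le_mul_of_nonneg_left (t5_tail L M hL hLM) (by positivity)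

lemma BB_le : ∃ C : ℝ, ∀ L : ℕ, 1 ≤ L → BB K L ≤ AA K L + C := by
  obtain ⟨C3, hC3⟩ := Pool.Agent.Helper923.HMertens.mertens_log
  refine ⟨Module.finrank ℚ K * (1 + |C3|), fun L hL => ?_⟩
  have hL' : (1 : ℝ) ≤ L := by exact_mod_cast hL
  have hL0 : (0 : ℝ) < L := by linarith
  have hLinv : (0 : ℝ) < 1 / (L : ℝ) := by positivity
  set h : ℕ → ℝ := fun n => rr K n * (n : ℝ) ^ (-(1 + 1 / (L : ℝ))) with hh
  have hx1 : (1 : ℝ) < 1 + 1 / (L : ℝ) := by linarith
  have hsum : Summable (fun p : Nat.Primes => (R K p : ℝ) * w (1 + 1 / (L : ℝ)) p) :=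
    bddmul_summable hx1 (C := Module.finrank ℚ K) fun p => by
      rw [abs_of_nonneg (by positivity)]; exact_mod_cast R_le p
  have h1 : ∑ n ∈ (Finset.range (2 ^ L)).filter Nat.Prime, h n ≤ AA K L := by
    have e1 : ∑ n ∈ (Finset.range (2 ^ L)).filter Nat.Prime, h n =
        ∑ p ∈ (Finset.range (2 ^ L)).subtype Nat.Prime, h (p : ℕ) :=
      (Finset.sum_subtype_eq_sum_filter (s := Finset.range (2 ^ L)) (p := Nat.Prime) h).symm
    rw [e1]
    have e2 : ∑ p ∈ (Finset.range (2 ^ L)).subtype Nat.Prime, h (p : ℕ) =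
        ∑ p ∈ (Finset.range (2 ^ L)).subtype Nat.Prime,
          (fun p : Nat.Primes => (R K p : ℝ) * w (1 + 1 / (L : ℝ)) p) p := by
      refine Finset.sum_congr rfl fun p _ => ?_
      simp only [hh]
      have := rr_coe K p
      rw [this]
      rfl
    rw [e2]
    unfold AA
    refine Summable.sum_le_tsum (L := SummationFilter.unconditional Nat.Primes) _ ?_ hsum
    intro p _
    exact mul_nonneg (by positivity) (w_nonneg _ _)
  have hpt : ∀ n ∈ (Finset.range (2 ^ L)).filter Nat.Prime, rr K n / n ≤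
      h n + (Module.finrank ℚ K : ℝ) / L * (Real.log n / n) := by
    intro n hn
    rw [Finset.mem_filter] at hn
    have hn1 : (1 : ℝ) ≤ n := by exact_mod_cast hn.2.one_lt.le
    have hn0 : (0 : ℝ) < n := by linarith
    have hlog : 0 ≤ Real.log n := Real.log_nonneg hn1
    have e1 : (n : ℝ) ^ (-(1 + 1 / (L : ℝ))) = (n : ℝ)⁻¹ * Real.exp (-(Real.log n / L)) := by
      rw [neg_add, Real.rpow_add hn0, Real.rpow_neg_one]
      congr 1
      rw [Real.rpow_def_of_pos hn0]
      congr 1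
      ring
    have h2 : 1 - Real.log n / L ≤ Real.exp (-(Real.log n / L)) := by
      have := Real.add_one_le_exp (-(Real.log n / L))
      linarith
    simp only [hh]
    rw [e1]
    have h3 : (n : ℝ)⁻¹ * (1 - Real.log n / L) ≤ (n : ℝ)⁻¹ * Real.exp (-(Real.log n / L)) :=
      mul_le_mul_of_nonneg_left h2 (by positivity)
    have h4 := mul_le_mul_of_nonneg_left h3 (rr_nonneg K n)
    have h5 : rr K n * (Real.log n / L / n) ≤
        (Module.finrank ℚ K : ℝ) * (Real.log n / L / n) :=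
      mul_le_mul_of_nonneg_right (rr_le K n) (by positivity)
    have e2 : rr K n * ((n : ℝ)⁻¹ * (1 - Real.log n / L)) =
        rr K n / n - rr K n * (Real.log n / L / n) := by
      field_simp
    have e3 : (Module.finrank ℚ K : ℝ) / L * (Real.log n / n) =
        (Module.finrank ℚ K : ℝ) * (Real.log n / L / n) := by
      field_simp
    rw [e2] at h4
    rw [e3]
    linarith
  have h6 : ∑ n ∈ (Finset.range (2 ^ L)).filter Nat.Prime, Real.log n / n ≤
      L * (1 + |C3|) := by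
    have h7 := hC3 (2 ^ L) (Nat.one_le_two_pow)
    have h8 : ∑ n ∈ (Finset.range (2 ^ L)).filter Nat.Prime, Real.log n / n ≤
        ∑ p ∈ (Finset.Icc 1 (2 ^ L)).filter Nat.Prime, Real.log p / p := by
      apply Finset.sum_le_sum_of_subset_of_nonneg
      · intro n hn
        rw [Finset.mem_filter, Finset.mem_range] at hn
        rw [Finset.mem_filter, Finset.mem_Icc]
        exact ⟨⟨hn.2.one_lt.le, hn.1.le⟩, hn.2⟩
      · intro n _ _
        have : 0 ≤ Real.log (n : ℝ) := Real.log_natCast_nonneg n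
        positivity
    have h9 := (abs_le.mp h7).2
    have h10 : Real.log ((2 ^ L : ℕ) : ℝ) = L * Real.log 2 := by
      push_cast
      rw [Real.log_pow]
    rw [h10] at h9
    have hlog2' : Real.log 2 < 1 := by
      have := Real.log_two_lt_d9
      linarith
    have h11 : (L : ℝ) * Real.log 2 ≤ L * 1 := mul_le_mul_of_nonneg_left hlog2'.le hL0.le
    have h12 : C3 ≤ L * |C3| := by
      have h13 := le_abs_self C3
      have h14 := abs_nonneg C3
      nlinarith
    linarith
  calc BB K L ≤ ∑ n ∈ (Finset.range (2 ^ L)).filter Nat.Prime,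
        (h n + (Module.finrank ℚ K : ℝ) / L * (Real.log n / n)) := Finset.sum_le_sum hpt
    _ = ∑ n ∈ (Finset.range (2 ^ L)).filter Nat.Prime, h n +
        (Module.finrank ℚ K : ℝ) / L *
          ∑ n ∈ (Finset.range (2 ^ L)).filter Nat.Prime, Real.log n / n := by
        rw [Finset.sum_add_distrib, Finset.mul_sum]
    _ ≤ AA K L + (Module.finrank ℚ K : ℝ) / L * (L * (1 + |C3|)) :=
        add_le_add h1 (mul_le_mul_of_nonneg_left h6 (by positivity))
    _ = AA K L + Module.finrank ℚ K * (1 + |C3|) := by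
        field_simp

lemma BB_log : ∃ C : ℝ, 0 ≤ C ∧ ∃ L0 : ℕ, ∀ L : ℕ, L0 ≤ L → |BB K L - Real.log L| ≤ C := by
  obtain ⟨C1, L0, h1⟩ := AA_log K
  obtain ⟨C2, h2⟩ := BB_le K
  refine ⟨|C1| + |C2| + Module.finrank ℚ K * 176, by positivity, max L0 1, fun L hL => ?_⟩
  have hL1 : 1 ≤ L := (le_max_right _ _).trans hL
  have h3 := abs_le.mp (h1 L ((le_max_left _ _).trans hL))
  have h4 := h2 L hL1
  have h5 := AA_le K L hL1
  have h6 := le_abs_self C1
  have h7 := le_abs_self C2
  have h8 := abs_nonneg C1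
  have h9 := abs_nonneg C2
  have h10 : (0 : ℝ) ≤ Module.finrank ℚ K * 176 := by positivity
  rw [abs_le]
  constructor <;> linarith [h3.1, h3.2]

/-- the number of primes counted -/
lemma BB_diff (L M : ℕ) (hML : M ≤ L) :
    BB K L - BB K M ≤ (Module.finrank ℚ K : ℝ) / 2 ^ M *
      (((Finset.range (2 ^ L)).filter (fun p => p.Prime ∧ HasDegOne K p)).card : ℝ) := by
  have e3 : (Finset.range (2 ^ L)).filter Nat.Prime =
      (Finset.range (2 ^ M)).filter Nat.Prime ∪
        (Finset.Ico (2 ^ M) (2 ^ L)).filter Nat.Prime := by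
    rw [← Finset.filter_union]
    congr 1
    rw [Finset.range_eq_Ico, Finset.range_eq_Ico, Finset.Ico_union_Ico_eq_Ico (Nat.zero_le _)
      (Nat.pow_le_pow_right (by norm_num) hML)]
  have hd : Disjoint ((Finset.range (2 ^ M)).filter Nat.Prime)
      ((Finset.Ico (2 ^ M) (2 ^ L)).filter Nat.Prime) := by
    apply Finset.disjoint_filter_filter
    rw [Finset.range_eq_Ico]
    exact Finset.Ico_disjoint_Ico_consecutive _ _ _
  have e4 : BB K L - BB K M = ∑ n ∈ (Finset.Ico (2 ^ M) (2 ^ L)).filter Nat.Prime, rr K n / n := by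
    unfold BB
    rw [e3, Finset.sum_union hd]
    ring
  rw [e4]
  have h1 : ∑ n ∈ (Finset.Ico (2 ^ M) (2 ^ L)).filter Nat.Prime, rr K n / n ≤
      ∑ n ∈ (Finset.Ico (2 ^ M) (2 ^ L)).filter Nat.Prime,
        (if HasDegOne K n then (Module.finrank ℚ K : ℝ) / 2 ^ M else 0) := by
    refine Finset.sum_le_sum fun n hn => ?_
    rw [Finset.mem_filter, Finset.mem_Ico] at hn
    have hn1 : ((2 : ℝ) ^ M) ≤ n := by exact_mod_cast hn.1.1
    have h2M : (0 : ℝ) < 2 ^ M := by positivity
    by_cases hz : R K ⟨n, hn.2⟩ = 0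
    · have : rr K n = 0 := by
        unfold rr
        rw [dif_pos hn.2, hz]
        simp
      rw [this, zero_div]
      split_ifs
      · positivity
      · exact le_refl _
    · rw [if_pos (t5_hasDegOne hz)]
      exact div_le_div₀ (by positivity) (rr_le K n) h2M hn1
  refine h1.trans ?_
  rw [← Finset.sum_filter, Finset.sum_const, nsmul_eq_mul, mul_comm]
  refine mul_le_mul_of_nonneg_left ?_ (by positivity)
  have h2 : (((Finset.Ico (2 ^ M) (2 ^ L)).filter Nat.Prime).filter (fun n => HasDegOne K n)).card ≤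
      ((Finset.range (2 ^ L)).filter (fun p => p.Prime ∧ HasDegOne K p)).card := by
    apply Finset.card_le_card
    intro n hn
    rw [Finset.mem_filter, Finset.mem_filter, Finset.mem_Ico] at hn
    rw [Finset.mem_filter, Finset.mem_range]
    exact ⟨hn.1.1.2, hn.1.2, hn.2⟩
  exact_mod_cast h2

end T8Aux

open T8Aux Pool.Agent.H692R2.USS in
theorem t8 : T8 := by
  classical
  intro K _ _
  obtain ⟨C, hC0, L0, hC⟩ := BB_log K
  set d : ℕ := Module.finrank ℚ K with hd
  have hd1 : 1 ≤ d := Module.finrank_pos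
  -- the factor k
  obtain ⟨k, hk1, hk⟩ : ∃ k : ℕ, 1 ≤ k ∧ 2 * C + 1 ≤ Real.log k := by
    obtain ⟨k, hk⟩ := exists_nat_ge (Real.exp (2 * C + 1))
    have hk0 : 0 < (k : ℝ) := lt_of_lt_of_le (Real.exp_pos _) hk
    refine ⟨k, by exact_mod_cast hk0, ?_⟩
    rw [Real.le_log_iff_exp_le hk0]
    exact hk
  have hkR : (1 : ℝ) ≤ k := by exact_mod_cast hk1
  have hk0 : (0 : ℝ) < k := by linarith
  refine ⟨1 / (2 * k), by positivity, 2 ^ (max (k * (L0 + 1)) (2 * k * (2 + d))), fun y hy => ?_⟩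
  have hy0 : y ≠ 0 := by
    have : 0 < 2 ^ (max (k * (L0 + 1)) (2 * k * (2 + d))) := by positivity
    omega
  set L := Nat.log 2 y with hL
  have hL1 : 2 ^ L ≤ y := Nat.pow_log_le_self 2 hy0
  have hL2 : y < 2 ^ (L + 1) := Nat.lt_pow_succ_log_self (by norm_num) y
  have hL3 : max (k * (L0 + 1)) (2 * k * (2 + d)) ≤ L := by
    rw [hL]
    exact Nat.le_log_of_pow_le (by norm_num) hy
  have hL4 : k * (L0 + 1) ≤ L := (le_max_left _ _).trans hL3
  have hL5 : 2 * k * (2 + d) ≤ L := (le_max_right _ _).trans hL3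
  set M := L / k with hM
  have hM1 : L0 + 1 ≤ M := by
    rw [hM, Nat.le_div_iff_mul_le (by omega)]
    rw [mul_comm]
    exact hL4
  have hML : M ≤ L := Nat.div_le_self _ _
  have hMk : M * k ≤ L := Nat.div_mul_le_self L k
  have hMk2 : L < (M + 1) * k := by
    have := Nat.lt_mul_div_succ L (show 0 < k by omega)
    rw [mul_comm]
    exact this
  have hMpos : (0 : ℝ) < M := by exact_mod_cast (show 0 < M by omega)
  have hLpos : (0 : ℝ) < L := by exact_mod_cast (show 0 < L by omega)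
  have hlog : Real.log M + Real.log k ≤ Real.log L := by
    rw [← Real.log_mul hMpos.ne' hk0.ne']
    apply Real.log_le_log (by positivity)
    exact_mod_cast hMk
  have b1 := abs_le.mp (hC L (by omega))
  have b2 := abs_le.mp (hC M (by omega))
  have b3 := BB_diff K L M hML
  have b4 : (1 : ℝ) ≤ BB K L - BB K M := by linarith [b1.1, b2.2]
  set N : ℕ := ((Finset.range (2 ^ L)).filter (fun p => p.Prime ∧ HasDegOne K p)).card with hN
  have b5 : (1 : ℝ) ≤ (d : ℝ) / 2 ^ M * N := b4.trans b3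
  have h2M : (0 : ℝ) < 2 ^ M := by positivity
  have b6 : (2 : ℝ) ^ M ≤ d * N := by
    have := mul_le_mul_of_nonneg_left b5 h2M.le
    rw [mul_one] at this
    refine this.trans (le_of_eq ?_)
    field_simp
  -- comparison of the counts
  have hfin : {p : ℕ | (p.Prime ∧ HasDegOne K p) ∧ p ≤ y}.Finite :=
    (Set.finite_Iic y).subset fun p hp => hp.2
  have b7 : N ≤ Nat.card {p : ℕ // (p.Prime ∧ HasDegOne K p) ∧ p ≤ y} := by
    have h1 : Nat.card {p : ℕ // (p.Prime ∧ HasDegOne K p) ∧ p ≤ y} =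
        {p : ℕ | (p.Prime ∧ HasDegOne K p) ∧ p ≤ y}.ncard := rfl
    rw [h1, hN, ← Set.ncard_coe_finset]
    apply Set.ncard_le_ncard _ hfin
    intro p hp
    rw [Finset.mem_coe, Finset.mem_filter, Finset.mem_range] at hp
    exact ⟨hp.2, (hp.1.le).trans hL1⟩
  have b8 : (N : ℝ) ≤ (Nat.card {p : ℕ // (p.Prime ∧ HasDegOne K p) ∧ p ≤ y} : ℝ) := by
    exact_mod_cast b7
  refine le_trans ?_ b8
  -- y ^ θ ≤ N
  have hd0 : (0 : ℝ) < d := by exact_mod_cast hd1
  have c1 : (y : ℝ) ^ (1 / (2 * (k : ℝ))) ≤ (2 : ℝ) ^ (((L : ℝ) + 1) * (1 / (2 * (k : ℝ)))) := by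
    rw [Real.rpow_mul (by norm_num : (0 : ℝ) ≤ 2)]
    apply Real.rpow_le_rpow (by positivity) _ (by positivity)
    have : (y : ℝ) ≤ (2 : ℝ) ^ (L + 1) := by exact_mod_cast hL2.le
    refine this.trans (le_of_eq ?_)
    rw [← Real.rpow_natCast]
    push_cast
    rfl
  have c2 : ((L : ℝ) + 1) * (1 / (2 * (k : ℝ))) + d ≤ M := by
    have e1 : (L : ℝ) < ((M : ℝ) + 1) * k := by exact_mod_cast hMk2
    have e2 : 2 * (k : ℝ) * (2 + d) ≤ L := by exact_mod_cast hL5
    have e3 : ((L : ℝ) + 1) * (1 / (2 * (k : ℝ))) = ((L : ℝ) + 1) / (2 * k) := by ring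
    rw [e3]
    have e4 : ((L : ℝ) + 1) / (2 * k) ≤ M - d := by
      rw [div_le_iff₀ (by positivity)]
      nlinarith
    linarith
  have c3 : (2 : ℝ) ^ (((L : ℝ) + 1) * (1 / (2 * (k : ℝ)))) * d ≤ d * N := by
    refine le_trans ?_ b6
    have e1 : (d : ℝ) ≤ (2 : ℝ) ^ (d : ℝ) := by
      rw [Real.rpow_natCast]
      exact_mod_cast (Nat.lt_two_pow_self (n := d)).le
    calc (2 : ℝ) ^ (((L : ℝ) + 1) * (1 / (2 * (k : ℝ)))) * d ≤
          (2 : ℝ) ^ (((L : ℝ) + 1) * (1 / (2 * (k : ℝ)))) * (2 : ℝ) ^ (d : ℝ) :=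
          mul_le_mul_of_nonneg_left e1 (by positivity)
      _ = (2 : ℝ) ^ (((L : ℝ) + 1) * (1 / (2 * (k : ℝ))) + d) := by
          rw [Real.rpow_add (by norm_num)]
      _ ≤ (2 : ℝ) ^ (M : ℝ) := Real.rpow_le_rpow_of_exponent_le (by norm_num) c2
      _ = (2 : ℝ) ^ M := Real.rpow_natCast _ _
  have c4 : (2 : ℝ) ^ (((L : ℝ) + 1) * (1 / (2 * (k : ℝ)))) ≤ N := by
    have : d * (2 : ℝ) ^ (((L : ℝ) + 1) * (1 / (2 * (k : ℝ)))) ≤ d * N := by
      rw [mul_comm]
      exact c3
    exact le_of_mul_le_mul_left this hd0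
  exact c1.trans c4

end Pool.Agent.H684R3.Smo
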