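import Pool.Agent.H684R3.Smo.Stmts
import Pool.Agent.Helper923.HMertens

set_option autoImplicit false

/-!
Project H684-SMO, task 9: a weak form of Chebyshev's lower bound.
-/

namespace Pool.Agent.H684R3.Smo

open Filter Topology

theorem t9 : T9 := by
  intro θ p₀ hθ
  obtain ⟨C, hC0, hC⟩ := Pool.Agent.Helper923.HMertens.mertens_ratio
  set θ₁ : ℝ := max θ (1 / 2) with hθ₁
  have h1 : θ₁ < 1 := max_lt hθ (by norm_num)
  have h1' : 1 / 2 ≤ θ₁ := le_max_right _ _
  set θ' : ℝ := (1 + θ₁) / 2 with hθ'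
  have h2 : θ' < 1 := by rw [hθ']; linarith
  have h2' : θ₁ < θ' := by rw [hθ']; linarith
  set θ'' : ℝ := (1 + θ') / 2 with hθ''
  have h3 : θ'' < 1 := by rw [hθ'']; linarith
  have h3' : θ' < θ'' := by rw [hθ'']; linarith
  have hp' : 0 < θ' := by linarith
  have hp'' : 0 < θ'' := by linarith
  set c : ℝ := Real.log (1 / θ'') / 2 with hc
  have hcpos : 0 < c := by
    have : 0 < Real.log (1 / θ'') := Real.log_pos (by rw [lt_div_iff₀ hp'']; linarith)
    rw [hc]
    linarith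
  have tR : ∀ s : ℝ, 0 < s → Tendsto (fun y : ℕ => (y : ℝ) ^ s) atTop atTop := fun s hs =>
    (tendsto_rpow_atTop hs).comp tendsto_natCast_atTop_atTop
  have tL : Tendsto (fun y : ℕ => Real.log (y : ℝ)) atTop atTop :=
    Real.tendsto_log_atTop.comp tendsto_natCast_atTop_atTop
  have E1 := (tR (θ'' - θ') (by linarith)).eventually_ge_atTop 2
  have E2 := tL.eventually_ge_atTop (C / (c * θ'))
  have E3 := (tR θ' hp').eventually_ge_atTop (max (p₀ : ℝ) 2)
  have E4 := (tR (θ' - θ₁) (by linarith)).eventually_ge_atTop (1 / c)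
  have E5 := eventually_ge_atTop (2 : ℕ)
  obtain ⟨y₀, hy₀⟩ := eventually_atTop.mp (E1.and (E2.and (E3.and (E4.and E5))))
  refine ⟨y₀, fun y hy => ?_⟩
  obtain ⟨e1, e2, e3, e4, e5⟩ := hy₀ y hy
  have hyR : (2 : ℝ) ≤ y := by exact_mod_cast e5
  have hy0 : (0 : ℝ) < y := by linarith
  have hlogy : 0 < Real.log y := Real.log_pos (by linarith)
  set a : ℕ := ⌈(y : ℝ) ^ θ'⌉₊ with ha
  have ha1 : (y : ℝ) ^ θ' ≤ a := Nat.le_ceil _
  have ha2 : (a : ℝ) < (y : ℝ) ^ θ' + 1 := Nat.ceil_lt_add_one (by positivity)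
  have hag2 : (2 : ℝ) ≤ a := (le_max_right _ _).trans (e3.trans ha1)
  have ha2' : 2 ≤ a := by exact_mod_cast hag2
  have hap : p₀ ≤ a := by exact_mod_cast (le_max_left _ _).trans (e3.trans ha1)
  have hale : (a : ℝ) ≤ (y : ℝ) ^ θ'' := by
    have h5 : (y : ℝ) ^ θ'' = (y : ℝ) ^ θ' * (y : ℝ) ^ (θ'' - θ') := by
      rw [← Real.rpow_add hy0]; congr 1; ring
    have h6 : (1 : ℝ) ≤ (y : ℝ) ^ θ' := by
      have := (le_max_right (p₀ : ℝ) 2).trans e3
      linarith
    rw [h5]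
    nlinarith
  have hay : a ≤ y := by
    have h5 : (y : ℝ) ^ θ'' ≤ (y : ℝ) ^ (1 : ℝ) :=
      Real.rpow_le_rpow_of_exponent_le (by linarith) h3.le
    rw [Real.rpow_one] at h5
    exact_mod_cast hale.trans h5
  have hla1 : θ' * Real.log y ≤ Real.log a := by
    have := Real.log_le_log (by positivity) ha1
    rwa [Real.log_rpow hy0] at this
  have hla2 : Real.log a ≤ θ'' * Real.log y := by
    have := Real.log_le_log (by linarith) hale
    rwa [Real.log_rpow hy0] at this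
  have hlapos : 0 < Real.log a := Real.log_pos (by linarith)
  have hsum : c ≤ ∑ p ∈ (Finset.Ioc a y).filter Nat.Prime, (1 : ℝ) / p := by
    have h5 := hC a y ha2' hay
    have h6 := (abs_le.mp h5).1
    have h7 : 2 * c ≤ Real.log (Real.log y / Real.log a) := by
      rw [hc, mul_div_cancel₀ _ (two_ne_zero)]
      apply Real.log_le_log (by positivity)
      rw [div_le_div_iff₀ hp'' hlapos]
      linarith
    have h8 : C / Real.log a ≤ c := by
      rw [div_le_iff₀ hlapos]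
      rw [div_le_iff₀ (by positivity)] at e2
      calc C ≤ Real.log y * (c * θ') := e2
        _ = c * (θ' * Real.log y) := by ring
        _ ≤ c * Real.log a := mul_le_mul_of_nonneg_left hla1 hcpos.le
    linarith
  have hcount : ∑ p ∈ (Finset.Ioc a y).filter Nat.Prime, (1 : ℝ) / p ≤
      ((Finset.Ioc a y).filter Nat.Prime).card * (1 / (a : ℝ)) := by
    rw [← nsmul_eq_mul]
    apply Finset.sum_le_card_nsmul
    intro p hp
    rw [Finset.mem_filter, Finset.mem_Ioc] at hp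
    apply one_div_le_one_div_of_le (by linarith)
    exact_mod_cast hp.1.1.le
  have hcard : ((Finset.Ioc a y).filter Nat.Prime).card ≤
      Nat.card {p : ℕ // (p.Prime ∧ p₀ ≤ p) ∧ p ≤ y} := by
    have hfin : {p : ℕ | (p.Prime ∧ p₀ ≤ p) ∧ p ≤ y}.Finite :=
      (Set.finite_Iic y).subset (fun p hp => hp.2)
    have : (((Finset.Ioc a y).filter Nat.Prime : Finset ℕ) : Set ℕ).ncard ≤
        {p : ℕ | (p.Prime ∧ p₀ ≤ p) ∧ p ≤ y}.ncard := by
      apply Set.ncard_le_ncard _ hfin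
      intro p hp
      rw [Finset.mem_coe, Finset.mem_filter, Finset.mem_Ioc] at hp
      exact ⟨⟨hp.2, hap.trans hp.1.1.le⟩, hp.1.2⟩
    rwa [Set.ncard_coe_finset] at this
  have hcard' : (((Finset.Ioc a y).filter Nat.Prime).card : ℝ) ≤
      (Nat.card {p : ℕ // (p.Prime ∧ p₀ ≤ p) ∧ p ≤ y} : ℝ) := by exact_mod_cast hcard
  refine le_trans ?_ hcard'
  have h9 : c * a ≤ ((Finset.Ioc a y).filter Nat.Prime).card := by
    have h10 := hsum.trans hcount
    rw [mul_one_div, le_div_iff₀ (by linarith)] at h10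
    exact h10
  refine le_trans ?_ h9
  have h11 : (y : ℝ) ^ θ ≤ (y : ℝ) ^ θ₁ :=
    Real.rpow_le_rpow_of_exponent_le (by linarith) (le_max_left _ _)
  have h12 : (y : ℝ) ^ θ' = (y : ℝ) ^ θ₁ * (y : ℝ) ^ (θ' - θ₁) := by
    rw [← Real.rpow_add hy0]; congr 1; ring
  have h13 : (y : ℝ) ^ θ₁ ≤ c * (y : ℝ) ^ θ' := by
    rw [h12]
    rw [div_le_iff₀ hcpos] at e4
    have h14 : (0 : ℝ) ≤ (y : ℝ) ^ θ₁ := by positivity
    nlinarith
  calc (y : ℝ) ^ θ ≤ (y : ℝ) ^ θ₁ := h11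
    _ ≤ c * (y : ℝ) ^ θ' := h13
    _ ≤ c * a := mul_le_mul_of_nonneg_left ha1 hcpos.le

end Pool.Agent.H684R3.Smo
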