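import Pool.Agent.H684R3.Smo.Asm
import Pool.Agent.H684R3.Smo.Fin
import Pool.Agent.H684R3.Smo.Task1
import Pool.Agent.H684R3.Smo.Task2
import Pool.Agent.H684R3.Smo.Task3
import Pool.Agent.H684R3.Smo.Task4
import Pool.Agent.H684R3.Smo.Task5
import Pool.Agent.H684R3.Smo.Task6
import Pool.Agent.H684R3.Smo.Task7
import Pool.Agent.H684R3.Smo.Task8
import Pool.Agent.H684R3.Smo.Task9
import Pool.Agent.H684R3.Smo.Task10

set_option autoImplicit false

namespace Pool.Agent.H684R3.Smo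

theorem h5 : T5 := t5 (t4 (t3 t1 t2))

end Pool.Agent.H684R3.Smo
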